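import Pool.Agent.J6H54.CG.Stm

set_option autoImplicit false

namespace Pool.Agent.J6H54.CG01

open Pool.Agent.J6H54.CG

theorem m01 : S_const := by
  intro k T hT
  have hk := hT.two_le
  have key : ∀ s : Pt, ∃ N : ℕ, s ∈ T → s.2.natAbs ≤ N ∧ Kad k N s.1 ∧ |s.1| ≤ (k : ℚ) ^ N := by
    intro s
    by_cases hs : s ∈ T
    · obtain ⟨d, hd⟩ := hT.kad s hs
      obtain ⟨n, hn⟩ := exists_nat_ge |s.1|
      refine ⟨s.2.natAbs + d + n, fun _ => ⟨by omega, kad_mono hk (by omega) hd, ?_⟩⟩
      have h1 : (n : ℚ) ≤ (k : ℚ) ^ n := by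
        have h2 : n < k ^ n := Nat.lt_pow_self (by omega)
        exact_mod_cast h2.le
      have h3 : (k : ℚ) ^ n ≤ (k : ℚ) ^ (s.2.natAbs + d + n) :=
        pow_le_pow_right₀ (one_lt hk).le (by omega)
      linarith
    · exact ⟨0, fun h => absurd h hs⟩
  choose N hN using key
  have hle : ∀ s ∈ T, N s ≤ ∑ t ∈ T, N t := fun s hs =>
    Finset.single_le_sum (f := N) (fun _ _ => Nat.zero_le _) hs
  set R := 1 + (∑ t ∈ T, N t) + len k T (0, 1) + len k T (0, -1) + len k T (1, 0) +
    len k T (-1, 0) with hR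
  refine ⟨R, by omega, fun s hs => ?_, fun s hs => ?_, fun s hs => ?_, by omega, by omega,
    by omega, by omega⟩
  · have := (hN s hs).1
    have := hle s hs
    omega
  · have h1 := (hN s hs).2.1
    have h2 := hle s hs
    exact kad_mono hk (by omega) h1
  · have h1 := (hN s hs).2.2
    have h2 := hle s hs
    exact h1.trans (pow_le_pow_right₀ (one_lt hk).le (by omega))

end Pool.Agent.J6H54.CG01
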