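import Pool.Agent.J6H54.CG.Stm

set_option autoImplicit false

namespace Pool.Agent.J6H54.CG03

open Pool.Agent.J6H54.CG

theorem m03 : S_in := by
  intro k T R hk hB w lo hi
  induction w with
  | nil =>
    intro s _ _
    refine ⟨⟨0, by simp⟩, by simp⟩
  | cons a w ih =>
    intro s hw hi'
    have h0 := hi' 0 (by simp)
    simp only [List.take_zero, ht_nil, add_zero] at h0
    have hwa : a ∈ T := hw a (by simp)
    have hww : Wd T w := fun t ht => hw t (by simp [ht])
    obtain ⟨ih1, ih2⟩ := ih (s + a.2) hww (fun i hi2 => by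
      have := hi' (i + 1) (by simpa using hi2)
      rw [List.take_succ_cons, ht_cons, ← add_assoc] at this
      exact this)
    have hval : (k : ℚ) ^ s * (val k (a :: w)).1 =
        (k : ℚ) ^ s * a.1 + (k : ℚ) ^ (s + a.2) * (val k w).1 := by
      rw [val_cons, mul_fst, zpow_add₀ (kne hk)]; ring
    rw [hval]
    have hkp := kpos hk
    constructor
    · refine kad_add ?_ ih1
      exact kad_mono hk (by omega) (kad_shift hk (hB.kad a hwa) s)
    · refine (abs_add_le _ _).trans ?_
      have e1 : |(k : ℚ) ^ s * a.1| ≤ (k : ℚ) ^ (hi + R) := by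
        rw [abs_mul, abs_of_pos (zpow_pos hkp s), zpow_add₀ (kne hk)]
        have e2 : (k : ℚ) ^ s ≤ (k : ℚ) ^ hi := zpow_le_zpow_right₀ (one_lt hk).le h0.2
        have e3 : |a.1| ≤ (k : ℚ) ^ (R : ℤ) := by rw [zpow_natCast]; exact hB.abs_le a hwa
        exact mul_le_mul e2 e3 (abs_nonneg _) (zpow_pos hkp _).le
      have e4 : (((a :: w).length : ℕ) : ℚ) * (k : ℚ) ^ (hi + R) =
          (k : ℚ) ^ (hi + R) + (w.length : ℚ) * (k : ℚ) ^ (hi + R) := by
        rw [List.length_cons]; push_cast; ring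
      rw [e4]
      linarith

end Pool.Agent.J6H54.CG03
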