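import Pool.Agent.J6H54.CG.Stm

set_option autoImplicit false

namespace Pool.Agent.J6H54.CG09

open Finset Pool.Agent.J6H54.CG

theorem sum_zpow_le {k : ℕ} (hk : 2 ≤ k) (H : Finset ℤ) :
    ∀ c : ℤ, (∀ h ∈ H, h < c) → ∑ h ∈ H, (k : ℚ) ^ h ≤ (k : ℚ) ^ c := by
  induction H using Finset.induction_on_max with
  | empty => intro c _; simpa using (zpow_pos (kpos hk) c).le
  | insert a s ha ih =>
    intro c hc
    rw [Finset.sum_insert (fun h => lt_irrefl _ (ha a h))]
    have e1 := ih a ha
    have e2 : a + 1 ≤ c := hc a (Finset.mem_insert_self a s)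
    have e3 : (k : ℚ) ^ (a + 1) ≤ (k : ℚ) ^ c := zpow_le_zpow_right₀ (one_lt hk).le e2
    rw [zpow_add_one₀ (kne hk)] at e3
    have e4 : (2 : ℚ) ≤ k := by exact_mod_cast hk
    have e5 := zpow_pos (kpos hk) a
    nlinarith

theorem low_le {k : ℕ} {T : Finset Pt} {R : ℕ} (hk : 2 ≤ k) (hB : Bd k T R) (c : ℤ)
    (w : List Pt) : ∀ s : ℤ, Wd T w → |lowX k c s w| ≤ (k : ℚ) ^ R *
      ∑ i ∈ range w.length, if s + ht (w.take i) < c then (k : ℚ) ^ (s + ht (w.take i)) else 0 := by
  induction w with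
  | nil => intro s _; simp [lowX]
  | cons a w ih =>
    intro s hw
    have ih' := ih (s + a.2) (fun t ht => hw t (by simp [ht]))
    have ha := hB.abs_le a (hw a (by simp))
    rw [List.length_cons, Finset.sum_range_succ']
    simp only [List.take_succ_cons, ht_cons, List.take_zero, ht_nil, add_zero]
    rw [mul_add]
    have e1 : ∑ i ∈ range w.length, (if s + (a.2 + ht (w.take i)) < c then
        (k : ℚ) ^ (s + (a.2 + ht (w.take i))) else 0) =
        ∑ i ∈ range w.length, (if s + a.2 + ht (w.take i) < c then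
        (k : ℚ) ^ (s + a.2 + ht (w.take i)) else 0) := by
      refine Finset.sum_congr rfl fun i _ => ?_
      rw [← add_assoc]
    rw [e1]
    have e2 : lowX k c s (a :: w) = (if s < c then (k : ℚ) ^ s * a.1 else 0) +
      lowX k c (s + a.2) w := rfl
    rw [e2]
    refine (abs_add_le _ _).trans ?_
    have e3 : |(if s < c then (k : ℚ) ^ s * a.1 else 0)| ≤
        (k : ℚ) ^ R * (if s < c then (k : ℚ) ^ s else 0) := by
      split_ifs
      · rw [abs_mul, abs_of_pos (zpow_pos (kpos hk) s), mul_comm]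
        exact mul_le_mul_of_nonneg_right ha (zpow_pos (kpos hk) s).le
      · simp
    linarith

theorem m09 : S_low := by
  intro k T R P hk hB c s w hw hvis
  refine (low_le hk hB c w s hw).trans ?_
  set g : ℕ → ℤ := fun i => s + ht (w.take i) with hg
  have e1 : ∑ i ∈ range w.length, (if g i < c then (k : ℚ) ^ (g i) else 0) =
      ∑ i ∈ (range w.length).filter (fun i => g i < c), (k : ℚ) ^ (g i) := by
    rw [Finset.sum_filter]
  have e2 : ∑ i ∈ (range w.length).filter (fun i => g i < c), (k : ℚ) ^ (g i) =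
      ∑ h ∈ ((range w.length).filter (fun i => g i < c)).image g,
        (#{i ∈ (range w.length).filter (fun i => g i < c) | g i = h}) • (k : ℚ) ^ h :=
    Finset.sum_comp (fun h : ℤ => (k : ℚ) ^ h) g
  have e3 : ∑ h ∈ ((range w.length).filter (fun i => g i < c)).image g,
        (#{i ∈ (range w.length).filter (fun i => g i < c) | g i = h}) • (k : ℚ) ^ h ≤
      ∑ h ∈ ((range w.length).filter (fun i => g i < c)).image g, (P : ℚ) * (k : ℚ) ^ h := by
    refine Finset.sum_le_sum fun h _ => ?_
    rw [nsmul_eq_mul]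
    refine mul_le_mul_of_nonneg_right ?_ (zpow_pos (kpos hk) h).le
    have f1 : (#{i ∈ (range w.length).filter (fun i => g i < c) | g i = h}) ≤ vis h R s w := by
      unfold vis
      refine Finset.card_le_card fun i hi => ?_
      simp only [mem_filter, mem_range] at hi ⊢
      refine ⟨by omega, ?_⟩
      have f2 : s + ht (w.take i) = h := hi.2
      rw [f2]; simp
    exact_mod_cast f1.trans (hvis h)
  have e4 : ∑ h ∈ ((range w.length).filter (fun i => g i < c)).image g, (k : ℚ) ^ h ≤
      (k : ℚ) ^ c := by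
    refine sum_zpow_le hk _ c fun h hh => ?_
    simp only [mem_image, mem_filter] at hh
    obtain ⟨i, ⟨_, hi⟩, rfl⟩ := hh
    exact hi
  have e5 : ∑ i ∈ range w.length, (if g i < c then (k : ℚ) ^ (g i) else 0) ≤
      (P : ℚ) * (k : ℚ) ^ c := by
    rw [e1, e2]
    refine e3.trans ?_
    rw [← Finset.mul_sum]
    exact mul_le_mul_of_nonneg_left e4 (by positivity)
  calc (k : ℚ) ^ R * ∑ i ∈ range w.length, (if g i < c then (k : ℚ) ^ (g i) else 0)
      ≤ (k : ℚ) ^ R * ((P : ℚ) * (k : ℚ) ^ c) := mul_le_mul_of_nonneg_left e5 (by positivity)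
    _ = P * (k : ℚ) ^ (c + R) := by rw [zpow_add₀ (kne hk), zpow_natCast]; ring

end Pool.Agent.J6H54.CG09
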