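import Pool.Agent.J6H54.CG.Stm

set_option autoImplicit false

namespace Pool.Agent.J6H54.CG11

open Pool.Agent.J6H54.CG

theorem ht_le {k : ℕ} {T : Finset Pt} {R : ℕ} (hB : Bd k T R) {w : List Pt} (hw : Wd T w) :
    (ht w).natAbs ≤ R * w.length := by
  induction w with
  | nil => simp
  | cons a w ih =>
    have h1 := ih (fun t ht => hw t (by simp [ht]))
    have h2 := hB.ht_le a (hw a (by simp))
    rw [ht_cons, List.length_cons, Nat.mul_succ]
    omega

theorem m11 (h2 : S_metric) : S_range := by
  intro k T R hT hB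
  constructor
  · intro p hp
    obtain ⟨w, hw, hv, hl⟩ := exists_geo hT hp
    rw [← hl, ← hv, val_snd]
    exact ht_le hB hw
  · obtain ⟨C, hC⟩ := h2 k T R hT hB
    refine ⟨C + R, fun h u hu => ?_⟩
    have e1 := hC 0 h (u : ℚ) (by simpa using kad_nat (k := k) u) (by
      rw [abs_of_nonneg (by positivity)]
      exact_mod_cast hu.le)
    have e2 := len_add hT (x := (u : ℚ)) (y := 0) (m := 0) (n := (h : ℤ)) (ka_nat u) ka_zero
    simp only [mul_zero, add_zero, zero_add] at e2
    have e3 := len_vert hT hB (h : ℤ)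
    simp only [Int.natAbs_natCast] at e3
    have e4 : (C + R) * (h + 1) = C * (h + 1) + (R * h + R) := by ring
    rw [e4]
    have e5 : C * (0 + h + 1) = C * (h + 1) := by ring
    rw [e5] at e1
    omega

end Pool.Agent.J6H54.CG11
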