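import Pool.Agent.J6H54.CG.Stm

set_option autoImplicit false

namespace Pool.Agent.J6H54.CG12

open Finset Pool.Agent.J6H54.CG

theorem m12 : S_mulA := by
  intro k T K hT hK h1 h2 z hz0 hz1
  have hk : 0 < k := by have := hT.two_le; omega
  have hsplit : A k T (h1 + h2) z = ∑ p ∈ range (k ^ h1) ×ˢ range (k ^ h2),
      z ^ len k T (((p.1 + k ^ h1 * p.2 : ℕ) : ℚ), ((h1 + h2 : ℕ) : ℤ)) := by
    unfold A
    symm
    refine Finset.sum_nbij' (fun p => p.1 + k ^ h1 * p.2) (fun u => (u % k ^ h1, u / k ^ h1))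
      ?_ ?_ ?_ ?_ ?_
    · rintro ⟨a, b⟩ hp
      simp only [mem_product, mem_range] at hp ⊢
      have e1 : k ^ h1 * b + k ^ h1 ≤ k ^ h1 * k ^ h2 := by
        rw [← Nat.mul_succ]; exact Nat.mul_le_mul_left _ hp.2
      rw [pow_add]; omega
    · intro u hu
      simp only [mem_product, mem_range] at hu ⊢
      refine ⟨Nat.mod_lt _ (pow_pos hk _), ?_⟩
      rw [Nat.div_lt_iff_lt_mul (pow_pos hk _), mul_comm, ← pow_add]; exact hu
    · rintro ⟨a, b⟩ hp
      simp only [mem_product, mem_range] at hp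
      simp only [Prod.mk.injEq]
      constructor
      · rw [Nat.add_mul_mod_self_left, Nat.mod_eq_of_lt hp.1]
      · rw [Nat.add_mul_div_left _ _ (pow_pos hk _), Nat.div_eq_of_lt hp.1, zero_add]
    · intro u _
      exact Nat.mod_add_div u (k ^ h1)
    · rintro ⟨a, b⟩ _
      rfl
  have hprod : A k T h1 z * A k T h2 z = ∑ p ∈ range (k ^ h1) ×ˢ range (k ^ h2),
      z ^ len k T ((p.1 : ℚ), (h1 : ℤ)) * z ^ len k T ((p.2 : ℚ), (h2 : ℤ)) := by
    unfold A
    rw [Finset.sum_mul_sum, Finset.sum_product]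
  rw [hsplit, hprod]
  constructor
  · refine Finset.sum_le_sum fun p _ => ?_
    rw [← pow_add]
    refine pow_le_pow_of_le_one hz0.le hz1 ?_
    have := len_add hT (x := (p.1 : ℚ)) (y := (p.2 : ℚ)) (m := (h1 : ℤ)) (n := (h2 : ℤ))
      (ka_nat _) (ka_nat _)
    have e : (p.1 : ℚ) + (k : ℚ) ^ (h1 : ℤ) * (p.2 : ℚ) = ((p.1 + k ^ h1 * p.2 : ℕ) : ℚ) := by
      push_cast; rw [zpow_natCast]
    rw [e] at this
    push_cast at this ⊢
    exact this
  · rw [Finset.mul_sum]
    refine Finset.sum_le_sum fun p hp => ?_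
    simp only [mem_product, mem_range] at hp
    rw [← pow_add, ← pow_add]
    refine pow_le_pow_of_le_one hz0.le hz1 ?_
    have := hK h1 h2 p.1 p.2 hp.1 hp.2
    omega

end Pool.Agent.J6H54.CG12
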