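import Pool.Agent.J6H54.CG.Stm

set_option autoImplicit false

namespace Pool.Agent.J6H54.CG33

open Finset Pool.Agent.J6H54.CG

theorem m33 (h11 : S_range) (h17 : S_Flow) : S_sumFlow := by
  intro k T R K C ρ hT hB hρ
  have hk2 := hT.two_le
  have hρ0 := hρ.pos
  have hR1 := hB.one_le
  have hR0 : (R : ℝ) ≠ 0 := by positivity
  have hRp : (0 : ℝ) < R := by positivity
  set θ : ℝ := ρ ^ ((R : ℝ)⁻¹) with hθ
  have hθ0 : 0 < θ := Real.rpow_pos_of_pos hρ0 _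
  have hθR : θ ^ R = ρ := by
    rw [hθ, ← Real.rpow_natCast, ← Real.rpow_mul hρ0.le, inv_mul_cancel₀ hR0, Real.rpow_one]
  have hθ1 : θ < 1 := by
    by_contra hcon
    have : 1 ≤ θ ^ R := one_le_pow₀ (not_lt.1 hcon)
    rw [hθR] at this
    linarith [hρ.lt_one]
  refine ⟨ρ ^ K, θ, R * C, pow_pos hρ0 K, hθ0, hθ1, fun q hq0 hq1 _ M => ?_⟩
  refine Finset.sum_le_sum fun m hm => ?_
  have hm1 : 1 ≤ m := (Finset.mem_Icc.1 hm).1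
  have hmp : (0 : ℝ) < m := by exact_mod_cast hm1
  rw [div_le_iff₀ hmp]
  have hz0 : 0 < ρ * q ^ R := mul_pos hρ0 (pow_pos hq0 R)
  have hz1 : ρ * q ^ R ≤ ρ := by
    have : q ^ R ≤ 1 := pow_le_one₀ hq0.le hq1.le
    nlinarith
  have hz2 : ρ * q ^ R ≤ 1 := hz1.trans hρ.lt_one.le
  have e1 := h17 k T hT m (ρ * q ^ R) hm1 hz0 hz2
  have e2 := hρ.ge q hq0 hq1.le m
  have hkm : 0 < k ^ m := pow_pos (by omega) m
  have e3 : A k T m (ρ * q ^ R) = ∑ r ∈ range (k ^ m - 1), (ρ * q ^ R) ^ len k T ((r : ℚ), (m : ℤ))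
      + (ρ * q ^ R) ^ len k T (((k ^ m - 1 : ℕ) : ℚ), (m : ℤ)) := by
    unfold A
    obtain ⟨n, hn⟩ : ∃ n, k ^ m = n + 1 := ⟨k ^ m - 1, by omega⟩
    rw [hn, Finset.sum_range_succ, Nat.add_sub_cancel]
  have e4 : (ρ * q ^ R) ^ len k T (((k ^ m - 1 : ℕ) : ℚ), (m : ℤ)) ≤ θ ^ m := by
    have f1 := (h11 k T R hT hB).1 (((k ^ m - 1 : ℕ) : ℚ), (m : ℤ)) (ka_nat _)
    simp only [Int.natAbs_natCast] at f1
    calc (ρ * q ^ R) ^ len k T (((k ^ m - 1 : ℕ) : ℚ), (m : ℤ))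
        ≤ ρ ^ len k T (((k ^ m - 1 : ℕ) : ℚ), (m : ℤ)) := pow_le_pow_left₀ hz0.le hz1 _
      _ = θ ^ (R * len k T (((k ^ m - 1 : ℕ) : ℚ), (m : ℤ))) := by rw [pow_mul, hθR]
      _ ≤ θ ^ m := pow_le_pow_of_le_one hθ0.le hθ1.le f1
  have e5 : q ^ (R * C * (m + 1)) = q ^ (R * (C * (m + 1))) := by rw [mul_assoc]
  rw [e5]
  have e6 : F k T m (ρ * q ^ R) * m = m * F k T m (ρ * q ^ R) := mul_comm _ _
  rw [e6]
  linarith

end Pool.Agent.J6H54.CG33
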