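import Pool.Agent.J6H54.CG.Fin
import Pool.Agent.J6H54.CG.M01
import Pool.Agent.J6H97.CG.M02
import Pool.Agent.J6H54.CG.M03
import Pool.Agent.J6H16.CG.M04
import Pool.Agent.J6H97.CG.M05
import Pool.Agent.J6H68.CG.M06
import Pool.Agent.J6H24.CG.M07
import Pool.Agent.J6H27.CG.M08
import Pool.Agent.J6H54.CG.M09
import Pool.Agent.J6H8.CG.M10
import Pool.Agent.J6H54.CG.M11
import Pool.Agent.J6H54.CG.M12
import Pool.Agent.J6H73.CG.M13
import Pool.Agent.J6H74.CG.M14
import Pool.Agent.J6H42.CG.M15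
import Pool.Agent.J6H57.CG.M16
import Pool.Agent.J6H83.CG.M17
import Pool.Agent.J6H35.CG.M18
import Pool.Agent.J6H76.CG.M19
import Pool.Agent.J6H94.CG.M20
import Pool.Agent.J6H80.CG.M21
import Pool.Agent.J6H85.CG.M22
import Pool.Agent.J6H98.CG.M23
import Pool.Agent.J6H19.CG.M24
import Pool.Agent.J6H78.CG.M25
import Pool.Agent.J6H78.CG.M26
import Pool.Agent.J6H57.CG.M27
import Pool.Agent.J6H22.CG.M28
import Pool.Agent.J6H10.CG.M29
import Pool.Agent.J6H75.CG.M30
import Pool.Agent.J6H54.CG.M31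
import Pool.Agent.J6H50.CG.M32
import Pool.Agent.J6H54.CG.M33

/-!
# All modules of project CG together
-/

set_option autoImplicit false

namespace Pool.Agent.J6H54.CG

theorem metric : S_metric := Pool.Agent.J6H97.CG02.m02

theorem split : S_split := Pool.Agent.J6H97.CG05.m05

theorem inside : S_inside := Pool.Agent.J6H16.CG04.m04 metric Pool.Agent.J6H54.CG03.m03

theorem collect : S_collect := Pool.Agent.J6H68.CG06.m06 Pool.Agent.J6H54.CG03.m03 split

theorem window : S_window :=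
  Pool.Agent.J6H24.CG07.m07 metric Pool.Agent.J6H54.CG03.m03 inside split collect

theorem low : S_low := Pool.Agent.J6H54.CG09.m09

theorem key : S_key := Pool.Agent.J6H8.CG10.m10 metric window Pool.Agent.J6H27.CG08.m08 low

theorem rng : S_range := Pool.Agent.J6H54.CG11.m11 metric

theorem rho : S_rho := Pool.Agent.J6H73.CG13.m13 Pool.Agent.J6H54.CG12.m12

theorem pow : S_pow := Pool.Agent.J6H74.CG14.m14

theorem cj : S_cj := Pool.Agent.J6H42.CG15.m15

theorem cls : S_class := Pool.Agent.J6H57.CG16.m16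

theorem cls0 : S_class0 := Pool.Agent.J6H19.CG24.m24

theorem zero : S_zero :=
  Pool.Agent.J6H98.CG23.m23 (Pool.Agent.J6H94.CG20.m20 Pool.Agent.J6H54.CG03.m03 low)
    Pool.Agent.J6H80.CG21.m21 Pool.Agent.J6H85.CG22.m22 cls0

theorem sumF : S_sumF :=
  Pool.Agent.J6H50.CG32.m32 (Pool.Agent.J6H35.CG18.m18 pow cj cls)
    (Pool.Agent.J6H76.CG19.m19 rng pow cj)

theorem sumFlow : S_sumFlow :=
  Pool.Agent.J6H54.CG33.m33 rng (Pool.Agent.J6H83.CG17.m17 cj cls)

theorem all (k : ℕ) (hk : 2 ≤ k) (G : Type) [Group G] (f : G → Pt) (hf : Mdl k G f) (S : Finset G)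
    (hS : Subgroup.closure (S : Set G) = ⊤) :
    ¬ ∃ P : Polynomial (Polynomial ℚ), P ≠ 0 ∧
      Polynomial.eval₂ Polynomial.coeToPowerSeries.ringHom
        (PowerSeries.mk (fun n : ℕ => (((cset S n).ncard : ℕ) : ℚ))) P = 0 :=
  final Pool.Agent.J6H54.CG01.m01 window key rng rho zero
    Pool.Agent.J6H78.CG26.m26 (Pool.Agent.J6H57.CG27.m27 cj)
    (Pool.Agent.J6H22.CG28.m28 cj cls cls0) Pool.Agent.J6H10.CG29.m29
    Pool.Agent.J6H75.CG30.m30 Pool.Agent.J6H54.CG31.m31 sumF sumFlow k hk G f hf S hS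

end Pool.Agent.J6H54.CG
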