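import Mathlib

/-!
# Word length in the affine group `ℤ[1/k] ⋊ ℤ`

Points `(x, m) : ℚ × ℤ` stand for the maps `y ↦ x + k ^ m y`.
-/

set_option autoImplicit false

namespace Pool.Agent.J6H54.CG

/-- the point `(x, m)` stands for the map `y ↦ x + k ^ m y` -/
abbrev Pt := ℚ × ℤ

/-- composition -/
def mul (k : ℕ) (a b : Pt) : Pt := (a.1 + (k : ℚ) ^ a.2 * b.1, a.2 + b.2)

/-- inverse -/
def inv (k : ℕ) (a : Pt) : Pt := (-((k : ℚ) ^ (-a.2) * a.1), -a.2)

/-- value of a word -/
def val (k : ℕ) (w : List Pt) : Pt := w.foldr (mul k) (0, 0)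

/-- height of the end of a word -/
def ht (w : List Pt) : ℤ := (w.map Prod.snd).sum

/-- `x * k ^ d` is an integer (`d` may be negative) -/
def Kad (k : ℕ) (d : ℤ) (x : ℚ) : Prop := ∃ a : ℤ, x * (k : ℚ) ^ d = a

/-- `x` is in `ℤ[1/k]` -/
def KA (k : ℕ) (x : ℚ) : Prop := ∃ d : ℕ, Kad k d x

/-- all letters of `w` are in `T` -/
def Wd (T : Finset Pt) (w : List Pt) : Prop := ∀ s ∈ w, s ∈ T

/-- `T` is a finite symmetric generating set of the group of all `(x, m)`, `x` in `ℤ[1/k]` -/
structure Gen (k : ℕ) (T : Finset Pt) : Prop where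
  two_le : 2 ≤ k
  kad : ∀ s ∈ T, KA k s.1
  symm : ∀ s ∈ T, inv k s ∈ T
  gen : ∀ p : Pt, KA k p.1 → ∃ w : List Pt, Wd T w ∧ val k w = p

/-- word length with respect to `T` -/
noncomputable def len (k : ℕ) (T : Finset Pt) (p : Pt) : ℕ :=
  sInf {n | ∃ w : List Pt, Wd T w ∧ val k w = p ∧ w.length = n}

/-- `w` is a shortest word for its value -/
def Geo (k : ℕ) (T : Finset Pt) (w : List Pt) : Prop := Wd T w ∧ len k T (val k w) = w.length

/-- conjugacy -/
def Cj (k : ℕ) (p q : Pt) : Prop := ∃ c : Pt, KA k c.1 ∧ mul k c p = mul k q c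

/-- length of the conjugacy class of `p` -/
noncomputable def clen (k : ℕ) (T : Finset Pt) (p : Pt) : ℕ :=
  sInf {n | ∃ q : Pt, Cj k p q ∧ len k T q = n}

/-- one constant `R` for all bounds on the letters and on the standard generators -/
structure Bd (k : ℕ) (T : Finset Pt) (R : ℕ) : Prop where
  one_le : 1 ≤ R
  ht_le : ∀ s ∈ T, s.2.natAbs ≤ R
  kad : ∀ s ∈ T, Kad k R s.1
  abs_le : ∀ s ∈ T, |s.1| ≤ (k : ℚ) ^ R
  t_le : len k T (0, 1) ≤ R
  t'_le : len k T (0, -1) ≤ R
  a_le : len k T (1, 0) ≤ R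
  a'_le : len k T (-1, 0) ≤ R

section basic
variable {k : ℕ} {T : Finset Pt}

theorem kpos (hk : 2 ≤ k) : (0 : ℚ) < k := by
  have : 0 < k := by omega
  exact_mod_cast this

theorem one_lt (hk : 2 ≤ k) : (1 : ℚ) < k := by
  have : 1 < k := by omega
  exact_mod_cast this

theorem kne (hk : 2 ≤ k) : (k : ℚ) ≠ 0 := (kpos hk).ne'

@[simp] theorem val_nil : val k [] = (0, 0) := rfl

theorem val_cons (s : Pt) (w : List Pt) : val k (s :: w) = mul k s (val k w) := rfl

@[simp] theorem ht_nil : ht [] = 0 := rfl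

@[simp] theorem ht_cons (s : Pt) (w : List Pt) : ht (s :: w) = s.2 + ht w := by simp [ht]

@[simp] theorem ht_append (u w : List Pt) : ht (u ++ w) = ht u + ht w := by simp [ht]

theorem val_snd (w : List Pt) : (val k w).2 = ht w := by
  induction w with
  | nil => rfl
  | cons s w ih => simp [val_cons, mul, ih]

theorem mul_fst (a b : Pt) : (mul k a b).1 = a.1 + (k : ℚ) ^ a.2 * b.1 := rfl

theorem mul_snd (a b : Pt) : (mul k a b).2 = a.2 + b.2 := rfl

theorem mul_assoc' (hk : 2 ≤ k) (a b c : Pt) : mul k (mul k a b) c = mul k a (mul k b c) := by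
  have := kne hk
  apply Prod.ext
  · simp only [mul_fst, mul_snd, zpow_add₀ this]; ring
  · simp only [mul_snd]; ring

theorem one_mul' (a : Pt) : mul k (0, 0) a = a := by
  apply Prod.ext <;> simp [mul]

theorem mul_one' (a : Pt) : mul k a (0, 0) = a := by
  apply Prod.ext <;> simp [mul]

theorem mul_inv' (hk : 2 ≤ k) (a : Pt) : mul k a (inv k a) = (0, 0) := by
  have := kne hk
  apply Prod.ext
  · simp only [mul, inv]
    rw [mul_neg, ← mul_assoc, ← zpow_add₀ this]; simp
  · simp [mul, inv]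

theorem inv_mul' (hk : 2 ≤ k) (a : Pt) : mul k (inv k a) a = (0, 0) := by
  apply Prod.ext
  · simp only [mul, inv]; ring
  · simp [mul, inv]

theorem inv_inv' (hk : 2 ≤ k) (a : Pt) : inv k (inv k a) = a := by
  have := kne hk
  apply Prod.ext
  · simp only [inv]
    rw [mul_neg, neg_neg, ← mul_assoc, ← zpow_add₀ this]; simp
  · simp [inv]

theorem inv_mul_rev (hk : 2 ≤ k) (a b : Pt) : inv k (mul k a b) = mul k (inv k b) (inv k a) := by
  have := kne hk
  apply Prod.ext
  · simp only [inv, mul, neg_add_rev, zpow_add₀ this, zpow_neg]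
    field_simp
    ring
  · simp [inv, mul, add_comm]

theorem val_append (hk : 2 ≤ k) (u w : List Pt) :
    val k (u ++ w) = mul k (val k u) (val k w) := by
  induction u with
  | nil => simp [one_mul']
  | cons s u ih => rw [List.cons_append, val_cons, ih, val_cons, mul_assoc' hk]

/-- the value of a concatenation, first coordinate -/
theorem val_append_fst (hk : 2 ≤ k) (u w : List Pt) :
    (val k (u ++ w)).1 = (val k u).1 + (k : ℚ) ^ ht u * (val k w).1 := by
  rw [val_append hk, mul_fst, val_snd]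

theorem Wd.append {u w : List Pt} (hu : Wd T u) (hw : Wd T w) : Wd T (u ++ w) := by
  intro s hs
  rcases List.mem_append.1 hs with h | h
  · exact hu s h
  · exact hw s h

theorem Wd.left {u w : List Pt} (h : Wd T (u ++ w)) : Wd T u := fun s hs =>
  h s (List.mem_append_left _ hs)

theorem Wd.right {u w : List Pt} (h : Wd T (u ++ w)) : Wd T w := fun s hs =>
  h s (List.mem_append_right _ hs)

theorem kad_mono (hk : 2 ≤ k) {d d' : ℤ} (h : d ≤ d') {x : ℚ} (hx : Kad k d x) : Kad k d' x := by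
  obtain ⟨a, ha⟩ := hx
  obtain ⟨n, rfl⟩ := Int.exists_add_of_le h
  refine ⟨a * (k : ℤ) ^ n, ?_⟩
  rw [zpow_add₀ (kne hk), ← mul_assoc, ha, zpow_natCast]
  push_cast; rfl

theorem kad_add {d : ℤ} {x y : ℚ} (hx : Kad k d x) (hy : Kad k d y) : Kad k d (x + y) := by
  obtain ⟨a, ha⟩ := hx
  obtain ⟨b, hb⟩ := hy
  exact ⟨a + b, by rw [add_mul, ha, hb]; push_cast; rfl⟩

theorem kad_neg {d : ℤ} {x : ℚ} (hx : Kad k d x) : Kad k d (-x) := by
  obtain ⟨a, ha⟩ := hx
  exact ⟨-a, by rw [neg_mul, ha]; push_cast; rfl⟩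

theorem kad_sub {d : ℤ} {x y : ℚ} (hx : Kad k d x) (hy : Kad k d y) : Kad k d (x - y) := by
  rw [sub_eq_add_neg]; exact kad_add hx (kad_neg hy)

/-- multiplication by a power of `k` shifts the exponent -/
theorem kad_shift (hk : 2 ≤ k) {d : ℤ} {x : ℚ} (hx : Kad k d x) (m : ℤ) :
    Kad k (d - m) ((k : ℚ) ^ m * x) := by
  obtain ⟨a, ha⟩ := hx
  refine ⟨a, ?_⟩
  rw [← ha, mul_comm ((k : ℚ) ^ m) x, mul_assoc, ← zpow_add₀ (kne hk)]
  congr 2; ring

theorem kad_int (a : ℤ) : Kad k 0 (a : ℚ) := ⟨a, by simp⟩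

theorem kad_nat (a : ℕ) : Kad k 0 (a : ℚ) := ⟨a, by simp⟩

theorem ka_of_kad (hk : 2 ≤ k) {d : ℤ} {x : ℚ} (hx : Kad k d x) : KA k x :=
  ⟨d.toNat, kad_mono hk (Int.self_le_toNat d) hx⟩

theorem ka_int (a : ℤ) : KA k (a : ℚ) := ⟨0, by simpa using kad_int (k := k) a⟩

theorem ka_nat (a : ℕ) : KA k (a : ℚ) := ⟨0, by simpa using kad_nat (k := k) a⟩

theorem ka_zero : KA k 0 := by simpa using ka_nat (k := k) 0

theorem ka_add (hk : 2 ≤ k) {x y : ℚ} (hx : KA k x) (hy : KA k y) : KA k (x + y) := by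
  obtain ⟨d, hd⟩ := hx
  obtain ⟨d', hd'⟩ := hy
  exact ka_of_kad hk (kad_add (kad_mono hk (le_max_left (d : ℤ) d') hd)
    (kad_mono hk (le_max_right (d : ℤ) d') hd'))

theorem ka_neg {x : ℚ} (hx : KA k x) : KA k (-x) := by
  obtain ⟨d, hd⟩ := hx
  exact ⟨d, kad_neg hd⟩

theorem ka_sub (hk : 2 ≤ k) {x y : ℚ} (hx : KA k x) (hy : KA k y) : KA k (x - y) := by
  rw [sub_eq_add_neg]; exact ka_add hk hx (ka_neg hy)

theorem ka_shift (hk : 2 ≤ k) {x : ℚ} (hx : KA k x) (m : ℤ) : KA k ((k : ℚ) ^ m * x) := by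
  obtain ⟨d, hd⟩ := hx
  exact ka_of_kad hk (kad_shift hk hd m)

theorem ka_mul (hk : 2 ≤ k) {a b : Pt} (ha : KA k a.1) (hb : KA k b.1) : KA k (mul k a b).1 :=
  ka_add hk ha (ka_shift hk hb _)

theorem ka_inv (hk : 2 ≤ k) {a : Pt} (ha : KA k a.1) : KA k (inv k a).1 :=
  ka_neg (ka_shift hk ha _)

/-- reversed inverse word -/
def rinv (k : ℕ) (w : List Pt) : List Pt := (w.map (inv k)).reverse

theorem inv_zero : inv k (0, 0) = (0, 0) := by simp [inv]

theorem val_singleton (s : Pt) : val k [s] = s := by rw [val_cons, val_nil, mul_one']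

theorem val_rinv (hk : 2 ≤ k) (w : List Pt) : val k (rinv k w) = inv k (val k w) := by
  induction w with
  | nil => simp [rinv, inv_zero]
  | cons s w ih =>
    have : rinv k (s :: w) = rinv k w ++ [inv k s] := by simp [rinv]
    rw [this, val_append hk, ih, val_singleton, val_cons, inv_mul_rev hk]

theorem length_rinv (w : List Pt) : (rinv k w).length = w.length := by simp [rinv]

theorem wd_rinv (hT : Gen k T) {w : List Pt} (hw : Wd T w) : Wd T (rinv k w) := by
  intro s hs
  simp only [rinv, List.mem_reverse, List.mem_map] at hs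
  obtain ⟨a, ha, rfl⟩ := hs
  exact hT.symm a (hw a ha)

/-- a word is at least as long as its value -/
theorem len_le {w : List Pt} (hw : Wd T w) : len k T (val k w) ≤ w.length :=
  Nat.sInf_le ⟨w, hw, rfl, rfl⟩

theorem len_le' {w : List Pt} {p : Pt} (hw : Wd T w) (h : val k w = p) : len k T p ≤ w.length := by
  rw [← h]; exact len_le hw

/-- geodesic words exist -/
theorem exists_geo (hT : Gen k T) {p : Pt} (hp : KA k p.1) :
    ∃ w, Wd T w ∧ val k w = p ∧ w.length = len k T p := by
  have hne : {n | ∃ w : List Pt, Wd T w ∧ val k w = p ∧ w.length = n}.Nonempty := by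
    obtain ⟨w, hw, h⟩ := hT.gen p hp
    exact ⟨w.length, w, hw, h, rfl⟩
  exact Nat.sInf_mem hne

theorem len_zero : len k T (0, 0) = 0 :=
  Nat.le_zero.1 (len_le' (w := []) (by intro s hs; simp at hs) rfl)

/-- triangle inequality -/
theorem len_mul (hT : Gen k T) {a b : Pt} (ha : KA k a.1) (hb : KA k b.1) :
    len k T (mul k a b) ≤ len k T a + len k T b := by
  obtain ⟨u, hu, rfl, hul⟩ := exists_geo hT ha
  obtain ⟨w, hw, rfl, hwl⟩ := exists_geo hT hb
  rw [← hul, ← hwl, ← List.length_append]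
  exact len_le' (hu.append hw) (val_append hT.two_le u w)

theorem len_inv_le (hT : Gen k T) {a : Pt} (ha : KA k a.1) : len k T (inv k a) ≤ len k T a := by
  obtain ⟨u, hu, rfl, hul⟩ := exists_geo hT ha
  rw [← hul, ← length_rinv (k := k) u]
  exact len_le' (wd_rinv hT hu) (val_rinv hT.two_le u)

theorem len_inv (hT : Gen k T) {a : Pt} (ha : KA k a.1) : len k T (inv k a) = len k T a := by
  apply le_antisymm (len_inv_le hT ha)
  have := len_inv_le hT (ka_inv hT.two_le ha)
  rwa [inv_inv' hT.two_le] at this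

/-- triangle inequality in coordinates -/
theorem len_add (hT : Gen k T) {x y : ℚ} {m n : ℤ} (hx : KA k x) (hy : KA k y) :
    len k T (x + (k : ℚ) ^ m * y, m + n) ≤ len k T (x, m) + len k T (y, n) :=
  len_mul hT (a := (x, m)) (b := (y, n)) hx hy

/-- the values of words are in `ℤ[1/k]` -/
theorem ka_val (hT : Gen k T) {w : List Pt} (hw : Wd T w) : KA k (val k w).1 := by
  induction w with
  | nil => exact ka_zero
  | cons s w ih =>
    rw [val_cons]
    exact ka_mul hT.two_le (hT.kad s (hw s (by simp))) (ih (fun t ht => hw t (by simp [ht])))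

/-- parts of geodesic words are geodesic -/
theorem Geo.mid (hT : Gen k T) {u v w : List Pt} (h : Geo k T (u ++ v ++ w)) : Geo k T v := by
  obtain ⟨h1, h2⟩ := h
  have hu : Wd T u := h1.left.left
  have hv : Wd T v := h1.left.right
  have hw : Wd T w := h1.right
  refine ⟨hv, le_antisymm (len_le hv) ?_⟩
  obtain ⟨v', hv', hval, hlen⟩ := exists_geo hT (ka_val hT hv)
  have h3 : val k (u ++ v' ++ w) = val k (u ++ v ++ w) := by
    rw [val_append hT.two_le, val_append hT.two_le, hval, ← val_append hT.two_le,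
      ← val_append hT.two_le]
  have h4 := len_le' ((hu.append hv').append hw) h3
  rw [h2] at h4
  simp only [List.length_append] at h4
  omega

theorem Geo.left (hT : Gen k T) {u v : List Pt} (h : Geo k T (u ++ v)) : Geo k T u := by
  have : Geo k T ([] ++ u ++ v) := by simpa using h
  exact this.mid hT

theorem Geo.right (hT : Gen k T) {u v : List Pt} (h : Geo k T (u ++ v)) : Geo k T v := by
  have : Geo k T (u ++ v ++ []) := by simpa using h
  exact this.mid hT

theorem exists_geo' (hT : Gen k T) {p : Pt} (hp : KA k p.1) :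
    ∃ w, Geo k T w ∧ val k w = p := by
  obtain ⟨w, hw, h, h'⟩ := exists_geo hT hp
  exact ⟨w, ⟨hw, by rw [h, h']⟩, h⟩

/-- moving in the direction of the second coordinate -/
theorem len_vert (hT : Gen k T) {R : ℕ} (hB : Bd k T R) (m : ℤ) :
    len k T (0, m) ≤ R * m.natAbs := by
  have key : ∀ (ε : ℤ), len k T (0, ε) ≤ R → ∀ n : ℕ, len k T (0, ε * n) ≤ R * n := by
    intro ε hε n
    induction n with
    | zero => simp [len_zero]
    | succ n ih =>
      have h := len_add hT (x := 0) (y := 0) (m := ε * n) (n := ε) ka_zero ka_zero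
      simp only [mul_zero, add_zero] at h
      have h2 : ε * ((n + 1 : ℕ) : ℤ) = ε * n + ε := by push_cast; ring
      rw [h2, Nat.mul_succ]
      omega
  rcases Int.natAbs_eq m with h | h
  · have := key 1 hB.t_le m.natAbs
    rw [one_mul, ← h] at this
    exact this
  · have := key (-1) hB.t'_le m.natAbs
    rw [neg_one_mul, ← h] at this
    exact this

end basic

/-- number of positions at which the path of `w` started at the height `s` has a height at distance
at most `R` from `j` -/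
noncomputable def vis (j : ℤ) (R : ℕ) (s : ℤ) (w : List Pt) : ℕ :=
  ((Finset.range (w.length + 1)).filter (fun i => (s + ht (w.take i) - j).natAbs ≤ R)).card

/-- the path of `w` started at the height `s` avoids the heights at distance at most `R` from `j` -/
def Av (j : ℤ) (R : ℕ) (s : ℤ) (w : List Pt) : Prop :=
  ∀ i ≤ w.length, R < (s + ht (w.take i) - j).natAbs

/-- the path of `w` started at the height `s` stays at distance at most `D` from `j`, except
possibly at its two ends -/
def Inn (j : ℤ) (D : ℕ) (s : ℤ) (w : List Pt) : Prop :=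
  ∀ i, 0 < i → i < w.length → (s + ht (w.take i) - j).natAbs ≤ D

/-- the power series `A_h`, evaluated at a real number -/
noncomputable def A (k : ℕ) (T : Finset Pt) (h : ℕ) (z : ℝ) : ℝ :=
  ∑ u ∈ Finset.range (k ^ h), z ^ len k T ((u : ℚ), (h : ℤ))

end Pool.Agent.J6H54.CG
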