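import Pool.Agent.J6H54.CG.Stm

/-!
# Assembly of project CG
-/

set_option autoImplicit false

namespace Pool.Agent.J6H54.CG

open Finset Filter Topology

theorem neg_log_nonneg {q : ℝ} (h0 : 0 < q) (h1 : q < 1) : 0 ≤ - Real.log (1 - q) := by
  have : Real.log (1 - q) ≤ 0 := Real.log_nonpos (by linarith) (by linarith)
  linarith

/-- The final theorem from the statements of the modules, for a group with a model. -/
theorem final (h1 : S_const) (h7 : S_window) (h10 : S_key)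
    (h11 : S_range) (h13 : S_rho) (h23 : S_zero)
    (h26 : S_words) (h27 : S_cset) (h28 : S_count) (h29 : S_eval) (h30 : S_crit) (h31 : S_logs)
    (h32 : S_sumF) (h33 : S_sumFlow)
    (k : ℕ) (hk : 2 ≤ k) (G : Type) [Group G] (f : G → Pt) (hf : Mdl k G f) (S : Finset G)
    (hS : Subgroup.closure (S : Set G) = ⊤) :
    ¬ ∃ P : Polynomial (Polynomial ℚ), P ≠ 0 ∧
      Polynomial.eval₂ Polynomial.coeToPowerSeries.ringHom
        (PowerSeries.mk (fun n : ℕ => (((cset S n).ncard : ℕ) : ℚ))) P = 0 := by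
  rintro ⟨P, hP0, hP⟩
  obtain ⟨T, hT, hw⟩ := h26 k G f S hk hf hS
  obtain ⟨R, hB⟩ := h1 k T hT
  obtain ⟨Pw, hPw⟩ := h7 k T R hT hB
  obtain ⟨K, hK⟩ := h10 k T R hT hB
  obtain ⟨hr, C, hC⟩ := h11 k T R hT hB
  obtain ⟨ρ, hρ⟩ := h13 k T R K C hT hB hK hr hC
  obtain ⟨hfin, hmem, hcj⟩ := h27 k G f S T hf hT hw
  obtain ⟨hup, hlow⟩ := h28 k G f S T hf hT hfin hmem hcj
  obtain ⟨C1, hC1⟩ := h23 k T R K C Pw ρ hT hB hPw hρ
  obtain ⟨C2, hC20, hC2⟩ := h32 k T R K C ρ hT hB hK hρ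
  obtain ⟨a, θ, c, ha, hθ0, hθ1, hFl⟩ := h33 k T R K C ρ hT hB hρ
  set co : ℕ → ℕ := fun n => (cset S n).ncard with hco
  have hρ0 := hρ.pos
  -- bounds for the partial sums
  have hzpos : ∀ q : ℝ, 0 < q → 0 < ρ * q ^ R := fun q hq => mul_pos hρ0 (pow_pos hq R)
  have hpart : ∀ q : ℝ, 0 < q → q < 1 → 1 / 2 ≤ q ^ R → ∀ N : ℕ,
      ∑ n ∈ range N, (co n : ℝ) * (ρ * q ^ R) ^ n ≤
        (|C1| + 2 * C2) - (|C1| + 2 * C2) * Real.log (1 - q) := by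
    intro q hq0 hq1 hqR N
    obtain ⟨M, X, hX, hN⟩ := hup N
    have e1 := hN (ρ * q ^ R) (hzpos q hq0)
    have hz1 : ρ / 2 ≤ ρ * q ^ R := by nlinarith
    have hz2 : ρ * q ^ R ≤ ρ := by
      have : q ^ R ≤ 1 := pow_le_one₀ hq0.le hq1.le
      nlinarith
    have e2 := hC1 (ρ * q ^ R) hz1 hz2 X hX
    have e3 := hC2 q hq0 hq1 hqR M
    have e4 := neg_log_nonneg hq0 hq1
    have e5 : C1 ≤ |C1| := le_abs_self C1
    have e6 : 0 ≤ |C1| * (-Real.log (1 - q)) := mul_nonneg (abs_nonneg _) e4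
    calc ∑ n ∈ range N, (co n : ℝ) * (ρ * q ^ R) ^ n
        ≤ ∑ x ∈ X, (ρ * q ^ R) ^ clen k T ((x : ℚ), (0 : ℤ)) +
            2 * ∑ m ∈ Icc 1 M, F k T m (ρ * q ^ R) := e1
      _ ≤ C1 + 2 * (C2 - C2 * Real.log (1 - q)) := by linarith
      _ ≤ _ := by nlinarith
  have hsum : ∀ q : ℝ, 0 < q → q < 1 → 1 / 2 ≤ q ^ R →
      Summable (fun n => (co n : ℝ) * (ρ * q ^ R) ^ n) := by
    intro q hq0 hq1 hqR
    refine summable_of_sum_range_le (c := (|C1| + 2 * C2) - (|C1| + 2 * C2) * Real.log (1 - q))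
      (fun n => ?_) (fun N => hpart q hq0 hq1 hqR N)
    have := hzpos q hq0
    positivity
  set g : ℝ → ℝ := fun x => ∑' n, (co n : ℝ) * x ^ n with hg
  have hgup : ∀ q : ℝ, 0 < q → q < 1 → 1 / 2 ≤ q ^ R →
      g (ρ * q ^ R) ≤ (|C1| + 2 * C2) - (|C1| + 2 * C2) * Real.log (1 - q) := by
    intro q hq0 hq1 hqR
    refine Real.tsum_le_of_sum_range_le (fun n => ?_) (fun N => hpart q hq0 hq1 hqR N)
    have := hzpos q hq0
    positivity
  have hglow : ∀ q : ℝ, 0 < q → q < 1 → 1 / 2 ≤ q ^ R → ∀ M : ℕ,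
      ∑ m ∈ Icc 1 M, (a * q ^ (c * (m + 1)) - θ ^ m) / m ≤ g (ρ * q ^ R) := by
    intro q hq0 hq1 hqR M
    obtain ⟨N, hN⟩ := hlow M
    refine (hFl q hq0 hq1 hqR M).trans ((hN _ (hzpos q hq0)).trans ?_)
    refine (hsum q hq0 hq1 hqR).sum_le_tsum _ (fun n _ => ?_)
    have := hzpos q hq0
    positivity
  obtain ⟨ht1, ht2⟩ := h31 g ρ a θ (|C1| + 2 * C2) R c hρ0 hB.one_le ha hθ0 hθ1 hglow hgup
  refine h30 g ρ ht1 ht2 P hP0 ?_
  have hev : ∀ᶠ x in 𝓝[<] ρ, x ∈ Set.Ioo (ρ / 2) ρ :=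
    Ioo_mem_nhdsLT (by linarith)
  filter_upwards [hev] with x hx
  -- write `x = ρ q ^ R`
  have hR0 : (R : ℝ) ≠ 0 := by
    have := hB.one_le
    positivity
  have hx0 : 0 < x := by linarith [hx.1]
  have hxρ : 0 < x / ρ := div_pos hx0 hρ0
  set q : ℝ := (x / ρ) ^ ((R : ℝ)⁻¹) with hq
  have hq0 : 0 < q := Real.rpow_pos_of_pos hxρ _
  have hqR : q ^ R = x / ρ := by
    rw [hq, ← Real.rpow_natCast, ← Real.rpow_mul hxρ.le, inv_mul_cancel₀ hR0, Real.rpow_one]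
  have hx1 : x / ρ < 1 := by rw [div_lt_one hρ0]; exact hx.2
  have hq1 : q < 1 := by
    by_contra hcon
    have : 1 ≤ q ^ R := one_le_pow₀ (not_lt.1 hcon)
    rw [hqR] at this
    linarith
  have hq2 : 1 / 2 ≤ q ^ R := by
    rw [hqR, le_div_iff₀ hρ0]
    linarith [hx.1]
  have hxq : ρ * q ^ R = x := by
    rw [hqR]; field_simp
  have hsx : Summable (fun n => (co n : ℝ) * x ^ n) := by
    have := hsum q hq0 hq1 hq2
    rwa [hxq] at this
  exact h29 co x hx0 hsx P hP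

end Pool.Agent.J6H54.CG
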