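import Pool.Agent.J6H54.CG.Stm

set_option autoImplicit false

namespace Pool.Agent.J6H54.CG31

open Finset Filter Topology Pool.Agent.J6H54.CG

theorem sum_Icc_eq (g : ℕ → ℝ) (M : ℕ) : ∑ m ∈ Icc 1 M, g m = ∑ i ∈ range M, g (i + 1) := by
  induction M with
  | zero => simp
  | succ M ih => rw [Finset.sum_Icc_succ_top (by omega), ih, Finset.sum_range_succ]

theorem geom_le (θ : ℝ) (h0 : 0 < θ) (h1 : θ < 1) (M : ℕ) :
    ∑ m ∈ Icc 1 M, θ ^ m / (m : ℝ) ≤ 1 / (1 - θ) := by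
  rw [sum_Icc_eq]
  have h2 : ∀ i ∈ range M, θ ^ (i + 1) / ((i + 1 : ℕ) : ℝ) ≤ θ ^ i := by
    intro i _
    rw [div_le_iff₀ (by positivity)]
    have e1 : θ ^ (i + 1) ≤ θ ^ i := pow_le_pow_of_le_one h0.le h1.le (by omega)
    have e2 : (1 : ℝ) ≤ ((i + 1 : ℕ) : ℝ) := by push_cast; linarith [Nat.cast_nonneg (α := ℝ) i]
    have e3 : 0 < θ ^ i := pow_pos h0 i
    nlinarith
  refine (Finset.sum_le_sum h2).trans ?_
  have h3 := (hasSum_geometric_of_lt_one h0.le h1)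
  rw [one_div]
  exact sum_le_hasSum _ (fun i _ => (pow_pos h0 i).le) h3

theorem harm (B : ℝ) (a : ℝ) (ha : 0 < a) : ∃ M : ℕ, B ≤ a * ∑ m ∈ Icc 1 M, 1 / (m : ℝ) := by
  have h := Real.tendsto_sum_range_one_div_nat_succ_atTop
  obtain ⟨M, hM⟩ := (h.eventually_ge_atTop (B / a)).exists
  refine ⟨M, ?_⟩
  rw [sum_Icc_eq]
  rw [div_le_iff₀ ha] at hM
  have : ∑ i ∈ range M, 1 / (((i + 1 : ℕ) : ℝ)) = ∑ i ∈ range M, 1 / ((i : ℝ) + 1) := by
    refine Finset.sum_congr rfl fun i _ => by push_cast; rfl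
  rw [this]; linarith

theorem m31 : S_logs := by
  intro f ρ a θ C R c hρ hR ha hθ0 hθ1 hlow hup
  have hR0 : (R : ℝ) ≠ 0 := by positivity
  have hRp : (0 : ℝ) < R := by positivity
  set Q : ℝ → ℝ := fun x => (x / ρ) ^ ((R : ℝ)⁻¹) with hQ
  have hev : ∀ᶠ x in 𝓝[<] ρ, x ∈ Set.Ioo (ρ / 2) ρ := Ioo_mem_nhdsLT (by linarith)
  have hQp : ∀ x ∈ Set.Ioo (ρ / 2) ρ, 0 < Q x ∧ Q x < 1 ∧ Q x ^ R = x / ρ ∧ 1 / 2 ≤ Q x ^ R ∧
      ρ * Q x ^ R = x := by
    intro x hx
    have hx0 : 0 < x := by linarith [hx.1]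
    have hxρ : 0 < x / ρ := div_pos hx0 hρ
    have hq0 : 0 < Q x := Real.rpow_pos_of_pos hxρ _
    have hqR : Q x ^ R = x / ρ := by
      rw [hQ]
      simp only
      rw [← Real.rpow_natCast, ← Real.rpow_mul hxρ.le, inv_mul_cancel₀ hR0, Real.rpow_one]
    have hx1 : x / ρ < 1 := by rw [div_lt_one hρ]; exact hx.2
    have hq1 : Q x < 1 := by
      by_contra hcon
      have : 1 ≤ Q x ^ R := one_le_pow₀ (not_lt.1 hcon)
      rw [hqR] at this
      linarith
    have hq2 : 1 / 2 ≤ Q x ^ R := by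
      rw [hqR, le_div_iff₀ hρ]
      linarith [hx.1]
    exact ⟨hq0, hq1, hqR, hq2, by rw [hqR]; field_simp⟩
  have hQt : Tendsto Q (𝓝[<] ρ) (𝓝 1) := by
    have h1 : Tendsto (fun x : ℝ => x / ρ) (𝓝[<] ρ) (𝓝 1) := by
      have : Tendsto (fun x : ℝ => x / ρ) (𝓝 ρ) (𝓝 (ρ / ρ)) := tendsto_id.div_const ρ
      rw [div_self hρ.ne'] at this
      exact this.mono_left nhdsWithin_le_nhds
    have h2 := h1.rpow_const (p := (R : ℝ)⁻¹) (Or.inl one_ne_zero)
    simpa using h2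
  have part1 : Tendsto f (𝓝[<] ρ) atTop := by
    rw [tendsto_atTop]
    intro B
    obtain ⟨M, hM⟩ := harm (B + 1 / (1 - θ) + 1) a ha
    set g : ℝ → ℝ := fun q => ∑ m ∈ Icc 1 M, (a * q ^ (c * (m + 1)) - θ ^ m) / (m : ℝ) with hg
    have hgc : Continuous g := by
      rw [hg]; fun_prop
    have hg1 : B + 1 ≤ g 1 := by
      have e1 : g 1 = a * ∑ m ∈ Icc 1 M, 1 / (m : ℝ) - ∑ m ∈ Icc 1 M, θ ^ m / (m : ℝ) := by
        rw [hg]
        simp only [one_pow, mul_one]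
        rw [Finset.mul_sum, ← Finset.sum_sub_distrib]
        refine Finset.sum_congr rfl fun m _ => by ring
      have e2 := geom_le θ hθ0 hθ1 M
      rw [e1]; linarith
    have hgt : Tendsto (fun x => g (Q x)) (𝓝[<] ρ) (𝓝 (g 1)) := (hgc.tendsto 1).comp hQt
    have h3 : ∀ᶠ x in 𝓝[<] ρ, B < g (Q x) := hgt.eventually_const_lt (by linarith)
    filter_upwards [h3, hev] with x h3 hx
    obtain ⟨q0, q1, q2, q3, q4⟩ := hQp x hx
    have := hlow (Q x) q0 q1 q3 M
    rw [q4] at this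
    exact h3.le.trans this
  refine ⟨part1, fun j => ?_⟩
  set y : ℝ → ℝ := fun x => (ρ - x) / (ρ * R) with hy
  set s : ℝ → ℝ := fun x => 1 - Real.log (y x) with hs
  have hyt : Tendsto y (𝓝[<] ρ) (𝓝[>] 0) := by
    rw [tendsto_nhdsWithin_iff]
    constructor
    · have : Tendsto y (𝓝 ρ) (𝓝 ((ρ - ρ) / (ρ * R))) :=
        (tendsto_const_nhds.sub tendsto_id).div_const _
      rw [sub_self, zero_div] at this
      exact this.mono_left nhdsWithin_le_nhds
    · filter_upwards [self_mem_nhdsWithin] with x hx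
      have hx' : x < ρ := hx
      have h1 : 0 < ρ - x := by linarith
      exact div_pos h1 (mul_pos hρ hRp)
  have hst : Tendsto s (𝓝[<] ρ) atTop := by
    have h1 : Tendsto (fun x => Real.log (y x)) (𝓝[<] ρ) atBot :=
      Real.tendsto_log_nhdsGT_zero.comp hyt
    have h2 : Tendsto (fun x => - Real.log (y x)) (𝓝[<] ρ) atTop := tendsto_neg_atBot_atTop.comp h1
    have h3 := tendsto_atTop_add_const_left (𝓝[<] ρ) (1 : ℝ) h2
    refine h3.congr fun x => ?_
    simp only [hs]; ring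
  have hexp : Tendsto (fun x => s x ^ j * Real.exp (-(s x))) (𝓝[<] ρ) (𝓝 0) :=
    (Real.tendsto_pow_mul_exp_neg_atTop_nhds_zero j).comp hst
  have hbig : Tendsto (fun x => (ρ * R * |C| ^ j * Real.exp 1) * (s x ^ j * Real.exp (-(s x))))
      (𝓝[<] ρ) (𝓝 0) := by
    have := hexp.const_mul (ρ * R * |C| ^ j * Real.exp 1)
    rwa [mul_zero] at this
  have hf0 : ∀ᶠ x in 𝓝[<] ρ, 0 ≤ f x := part1.eventually_ge_atTop 0
  refine squeeze_zero' ?_ ?_ hbig
  · filter_upwards [hf0, hev] with x h0 hx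
    have : 0 ≤ ρ - x := by linarith [hx.2]
    positivity
  · filter_upwards [hf0, hev] with x h0 hx
    obtain ⟨q0, q1, q2, q3, q4⟩ := hQp x hx
    have hfu := hup (Q x) q0 q1 q3
    rw [q4] at hfu
    have hyp : 0 < y x := div_pos (by linarith [hx.2]) (mul_pos hρ hRp)
    -- Bernoulli
    have hb : y x ≤ 1 - Q x := by
      have hb1 : 1 + (R : ℝ) * (Q x - 1) ≤ (1 + (Q x - 1)) ^ R :=
        one_add_mul_le_pow (by linarith) R
      rw [show 1 + (Q x - 1) = Q x by ring, q2] at hb1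
      have e1 : y x = (1 - x / ρ) / R := by
        simp only [hy]; field_simp
      rw [e1, div_le_iff₀ hRp]
      linarith
    have hlog : Real.log (y x) ≤ Real.log (1 - Q x) := Real.log_le_log hyp hb
    have hlog0 : Real.log (1 - Q x) ≤ 0 := Real.log_nonpos (by linarith) (by linarith)
    have hfs : f x ≤ |C| * s x := by
      have e1 : C - C * Real.log (1 - Q x) = C * (1 - Real.log (1 - Q x)) := by ring
      have e2 : C * (1 - Real.log (1 - Q x)) ≤ |C| * (1 - Real.log (1 - Q x)) :=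
        mul_le_mul_of_nonneg_right (le_abs_self C) (by linarith)
      have e3 : |C| * (1 - Real.log (1 - Q x)) ≤ |C| * s x :=
        mul_le_mul_of_nonneg_left (by simp only [hs]; linarith) (abs_nonneg C)
      linarith
    have hpow : f x ^ j ≤ |C| ^ j * s x ^ j := by
      rw [← mul_pow]; exact pow_le_pow_left₀ h0 hfs j
    have hρx : 0 ≤ ρ - x := by linarith [hx.2]
    have hee : Real.exp 1 * Real.exp (-(s x)) = y x := by
      rw [← Real.exp_add]
      simp only [hs]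
      rw [show (1 : ℝ) + -(1 - Real.log (y x)) = Real.log (y x) by ring, Real.exp_log hyp]
    have hyx : ρ * R * y x = ρ - x := by
      simp only [hy]; field_simp
    calc (ρ - x) * f x ^ j ≤ (ρ - x) * (|C| ^ j * s x ^ j) :=
          mul_le_mul_of_nonneg_left hpow hρx
      _ = (ρ * R * |C| ^ j * Real.exp 1) * (s x ^ j * Real.exp (-(s x))) := by
          rw [← hyx, ← hee]; ring

end Pool.Agent.J6H54.CG31
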