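import Pool.Agent.J6H54.CG.All

/-!
# Solvable Baumslag–Solitar groups: the conjugacy growth series is transcendental for every finite
generating set
-/

set_option autoImplicit false

namespace Pool.Agent.J6H54.CG.SolvableBS

open Pool.Agent.J6H54.CG

theorem result (k : ℕ) (hk : 2 ≤ k) (G : Type) [Group G]
    (iso : G ≃* PresentedGroup ({FreeGroup.of 1 * FreeGroup.of 0 * (FreeGroup.of 1)⁻¹ *
      (FreeGroup.of 0 ^ k)⁻¹} : Set (FreeGroup (Fin 2))))
    (S : Finset G) (hS : Subgroup.closure (S : Set G) = ⊤) :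
    ¬ ∃ P : Polynomial (Polynomial ℚ), P ≠ 0 ∧
      Polynomial.eval₂ Polynomial.coeToPowerSeries.ringHom
        (PowerSeries.mk (fun n : ℕ =>
          ((Set.ncard {c : ConjClasses G |
            (∃ g : G, ConjClasses.mk g = c ∧
              ∃ l : List G, l.length ≤ n ∧ (∀ x ∈ l, x ∈ S ∨ x⁻¹ ∈ S) ∧ l.prod = g) ∧
            (∀ g : G, ConjClasses.mk g = c → ∀ l : List G, (∀ x ∈ l, x ∈ S ∨ x⁻¹ ∈ S) →
              l.prod = g → n ≤ l.length)} : ℕ) : ℚ)))
        P = 0 := by
  obtain ⟨f, hf⟩ := Pool.Agent.J6H78.CG25.m25 k hk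
  let iso' : G ≃* PresentedGroup (bsRel k) := iso
  have hf' : Mdl k G (fun g => f (iso' g)) := by
    refine ⟨fun g h => ?_, fun g h hgh => iso'.injective (hf.inj hgh), fun p => ?_⟩
    · rw [map_mul iso' g h]; exact hf.map_mul _ _
    · rw [← hf.ran p]
      constructor
      · rintro ⟨g, hg⟩; exact ⟨iso' g, hg⟩
      · rintro ⟨g, hg⟩
        refine ⟨iso'.symm g, ?_⟩
        change f (iso' (iso'.symm g)) = p
        rw [MulEquiv.apply_symm_apply]; exact hg
  exact all k hk G (fun g => f (iso' g)) hf' S hS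

end Pool.Agent.J6H54.CG.SolvableBS
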