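import Pool.Agent.J6H54.CG.Defs

/-!
# Statements of the modules of project CG (MP_a1853d_al)

Final theorem: for every `k ≥ 2` and every finite generating set of `BS(1,k)` the conjugacy growth
series is transcendental.  All statements are about words in a finite set `T ⊂ ℚ × ℤ` (see `Defs`).
Each statement carries its proof in the docstring.  Heights: the path of a word `w` started at the
height `s` visits the heights `s + ht (w.take i)`, `i = 0, …, |w|`.
-/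

set_option autoImplicit false

namespace Pool.Agent.J6H54.CG

open Finset Filter Topology

/-! ## Geometry -/

/-- CG-01.  All bounds with one constant.  For each `s ∈ T` each of the four conditions on `s` holds
for all large `R` (`kad_mono`, `KA`; `|x| ≤ k ^ R` for large `R`); `T` is finite. -/
def S_const : Prop := ∀ (k : ℕ) (T : Finset Pt), Gen k T → ∃ R : ℕ, Bd k T R

/-- CG-02.  Upper bound for the length of translations.  Let `c = k * R + 2 * R`.  (1) For a natural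
number `n < k ^ N`: `len (n, 0) ≤ c * N`, by induction on `N`, with `n = d + k n'`, `d < k`:
`(n, 0) = (d, 0) (0, 1) (n', 0) (0, -1)` and `len (d, 0) ≤ d R` (`len_add`).  The same for `(-n, 0)`,
its inverse (`len_inv`).  (2) `y = a / k ^ d` with `|a| ≤ k ^ (L + d) < k ^ (L + d + 1)` and
`(y, 0) = (0, -d) (a, 0) (0, d)` (`len_vert`). -/
def S_metric : Prop := ∀ (k : ℕ) (T : Finset Pt) (R : ℕ), Gen k T → Bd k T R →
  ∃ C : ℕ, ∀ (d L : ℕ) (y : ℚ), Kad k d y → |y| ≤ (k : ℚ) ^ L → len k T (y, 0) ≤ C * (d + L + 1)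

/-- CG-03.  The value of a word whose path stays between `lo` and `hi` (except possibly at its last
point).  By induction on `w`, generalizing `s`: the letter `a` at the height `h` contributes
`k ^ h * a.1`, which satisfies `Kad k (R - h)` and has absolute value at most `k ^ (h + R)`. -/
def S_in : Prop := ∀ (k : ℕ) (T : Finset Pt) (R : ℕ), 2 ≤ k → Bd k T R →
  ∀ (w : List Pt) (lo hi s : ℤ), Wd T w →
  (∀ i < w.length, lo ≤ s + ht (w.take i) ∧ s + ht (w.take i) ≤ hi) →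
  Kad k (R - lo) ((k : ℚ) ^ s * (val k w).1) ∧
    |(k : ℚ) ^ s * (val k w).1| ≤ w.length * (k : ℚ) ^ (hi + R)

/-- CG-04.  A geodesic word whose path stays at distance at most `D` from `j` (except possibly at its
two ends) has bounded length.  Remove the first letter (a geodesic word remains, `Geo.right`); for
the rest `v` all start heights `s' + ht (v.take i)`, `i < |v|`, are within `D` of `j`, so by `S_in`
with `lo = j - D`, `hi = j + D`, after dividing by `k ^ s'` (`kad_shift`; `|s' - j| ≤ D`):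
`(val v).1` satisfies `Kad k (R + 2 D)` and `|(val v).1| ≤ |v| * k ^ (2 D + R)`,
`|ht v| ≤ 2 D + R`.  By `S_metric` (`|v| ≤ k ^ L` with `L` about `log₂ |v|`) and `len_vert`
`|v| = len (val v) ≤ C (R + 2 D + 2 D + R + L + 1) + R (2 D + R)`, which bounds `|v|`. -/
def S_inside : Prop := ∀ (k : ℕ) (T : Finset Pt) (R D : ℕ), Gen k T → Bd k T R →
  ∃ Λ : ℕ, ∀ (j s : ℤ) (w : List Pt), Geo k T w → Inn j D s w → w.length ≤ Λ

/-- CG-05.  First passage through the window.  The path of `w` starts at `s`, outside of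
`[j - D, j + D]`.  If it never visits `Z = [j - R, j + R]` take `e1 = w`, `e2 = []`.  Otherwise let `τ`
be the first time in `Z` and `σ < τ` the last time before `τ` outside of `[j - D, j + D]`, and `τ'`
the first time after `τ` outside of it.  If `τ'` does not exist take the first alternative with
`e1 = w.take σ`, otherwise the second one with `o = w.take σ`, `t` = the part from `σ` to `τ'`.
Steps are at most `R`, so the heights at `σ`, `τ'` are at distance at most `D + R` from `j`; and `t`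
goes from distance `> D` to distance `≤ R` and back: `2 (D - R) ≤ R |t|`. -/
def S_split : Prop := ∀ (k : ℕ) (T : Finset Pt) (R D : ℕ) (j s : ℤ) (w : List Pt),
  Bd k T R → Wd T w → R ≤ D → D < (s - j).natAbs →
  (∃ e1 e2 : List Pt, w = e1 ++ e2 ∧ Av j R s e1 ∧
    ∀ i, 0 < i → i ≤ e2.length → (s + ht e1 + ht (e2.take i) - j).natAbs ≤ D) ∨
  (∃ o t w' : List Pt, w = o ++ t ++ w' ∧ t ≠ [] ∧ Av j R s o ∧
    D < (s + ht o - j).natAbs ∧ (s + ht o - j).natAbs ≤ D + R ∧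
    Inn j D (s + ht o) t ∧
    D < (s + ht o + ht t - j).natAbs ∧ (s + ht o + ht t - j).natAbs ≤ D + R ∧
    2 * (D - R) ≤ R * t.length)

/-- CG-06.  Collecting the excursions.  The path starts outside of the window `[j - D, j + D]`, at
distance at most `D + R` from `j`.  The result: `xu` is the sum of the contributions of the excursions
`o` above the window, `xl` below the window, `y` the sum of the contributions of the parts `t`,
`τ` the total length of the parts `t`, `M` their number.  Strong induction on `|w|` with `S_split`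
(hypothesis).  First alternative: `e = w`, `ae = s`, all numbers `0` and
`vis j R s w ≤ |e2| + 1 ≤ Λ + 1` (the points of `e1` are not in `Z`).  Second alternative: apply the
induction hypothesis to `w'` (geodesic by `Geo.right`) started at `s + ht o + ht t`.  The excursion `o`
avoids `Z` and steps are `≤ R`, so its two ends are on the same side; if it is above, its
contribution is `x = k ^ s * (val o).1` and
`len (k ^ (-(j + D)) * x, 0) ≤ R * R + |o| + R * R` since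
`(k ^ (-(j + D)) x, 0) = (0, s - (j + D)) (val o) (0, j + D - (s + ht o))` and both differences of
heights are at most `R`; similarly below.  Lengths at height `0` add up: `len_add` with `m = n = 0`.
The contribution `k ^ (s + ht o) * (val t).1` of `t` is estimated by `S_in` with
`lo = j - D - R`, `hi = j + D + R`. -/
def S_collect : Prop := ∀ (k : ℕ) (T : Finset Pt) (R D Λ : ℕ), Gen k T → Bd k T R → R ≤ D →
  (∀ (j s : ℤ) (w : List Pt), Geo k T w → Inn j D s w → w.length ≤ Λ) →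
  ∀ (j s : ℤ) (w : List Pt), Geo k T w → D < (s - j).natAbs → (s - j).natAbs ≤ D + R →
  ∃ (xu xl y : ℚ) (nu nl τ M : ℕ) (ae : ℤ) (e : List Pt), Wd T e ∧
    (k : ℚ) ^ s * (val k w).1 = xu + xl + y + (k : ℚ) ^ ae * (val k e).1 ∧
    ae + ht e = s + ht w ∧ (ae - j).natAbs ≤ D + R ∧
    KA k xu ∧ KA k xl ∧ Kad k (D + 2 * R - j) y ∧ |y| ≤ τ * (k : ℚ) ^ (j + D + 2 * R) ∧
    len k T ((k : ℚ) ^ (-(j + D)) * xu, 0) ≤ nu ∧ len k T ((k : ℚ) ^ (-(j - D)) * xl, 0) ≤ nl ∧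
    nu + nl + τ + e.length ≤ w.length + 2 * R * R * M ∧
    2 * (D - R) * M ≤ R * τ ∧
    vis j R s w ≤ τ + M + Λ + 1

/-- CG-07.  WINDOW LEMMA: geodesic words visit the neighbourhood of each height a bounded number of
times.  Put `D = R + 2 * R ^ 3`, `Λ` from `S_inside`, so that in `S_collect`
`4 * R * R * M ≤ τ`, that is `2 R² M ≤ τ / 2`.  Let `w = w0 ++ w1`, where `w0` is the part until the
first time outside of `[j - D, j + D]`; if that time does not exist then `|w| ≤ Λ` by `S_inside`;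
in any case `|w0| ≤ Λ`.  Apply `S_split` to `w1` started at `s1 = s + ht w0`.  First alternative:
`vis ≤ |w0| + |e2| + 2 ≤ 2 Λ + 2`.  Second alternative: `w1 = o ++ t ++ w2`, `|t| ≤ Λ`; apply
`S_collect` to `w2` started at `s2 = s1 + ht o + ht t`.  Put `y' = y + k ^ (s1 + ht o) * (val t).1`
(the contribution of `t` is estimated with `S_in`, as in `S_collect`).  Then `w` has the same value as
the product of `val (w0 ++ o)`, a vertical move to the height `j + D`, `(k ^ (-(j + D)) xu, 0)`, a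
move to `j - D`, `(k ^ (-(j - D)) xl, 0)`, a move to `j`, `(k ^ (-j) y', 0)`, a move to `ae` and
`val e` (all heights measured from `s`); the moves have length at most `R (2 D + R)` each.  Hence
`|w| ≤ |w0| + |o| + nu + nl + |e| + 4 R (2 D + R) + len (k ^ (-j) y', 0)`; since
`|w| = |w0| + |o| + |t| + |w2|` and `|w2| ≥ nu + nl + τ + |e| - 2 R² M` we get
`|t| + τ ≤ τ / 2 + 4 R (2 D + R) + len (k ^ (-j) y', 0)` and by `S_metric`
`len (k ^ (-j) y', 0) ≤ C (D + 2 R + D + 2 R + L + 1)` with `k ^ L ≥ τ + |t|`, `L` about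
`log₂ (τ + |t|)`.  So `τ` is bounded, and `vis j R s w ≤ |w0| + |t| + 2 + vis j R s2 w2`. -/
def S_window : Prop := ∀ (k : ℕ) (T : Finset Pt) (R : ℕ), Gen k T → Bd k T R →
  ∃ P : ℕ, ∀ (j s : ℤ) (w : List Pt), Geo k T w → vis j R s w ≤ P

/-- sum of the contributions of the letters at heights below `c` -/
def lowX (k : ℕ) (c : ℤ) : ℤ → List Pt → ℚ
  | _, [] => 0
  | s, a :: w => (if s < c then (k : ℚ) ^ s * a.1 else 0) + lowX k c (s + a.2) w

/-- sum of the contributions of the letters at heights at least `c` -/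
def highX (k : ℕ) (c : ℤ) : ℤ → List Pt → ℚ
  | _, [] => 0
  | s, a :: w => (if s < c then 0 else (k : ℚ) ^ s * a.1) + highX k c (s + a.2) w

/-- CG-08.  CUT LEMMA, by induction on `w`, generalizing `s`.  Step: `w = a :: w'`, `s' = s + a.2`,
`f` the final height.  Case `s < c`: `low = k ^ s a.1 + low'`, `high = high'`, and the low element is
`(a.1, min s' c - s)` times the low element of `w'`, with
`len (a.1, min s' c - s) ≤ 1 + R * (s' - min s' c)` (`len_add`, `len_vert`), and the high element is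
`(0, max s' c - c)` times the high element of `w'`.  If `s' ≤ c` there is no additional cost; if
`c < s'` then `s' - c ≤ R`, the additional cost is at most `2 R²` and the point `0` is counted in
`vis` since `|s - c| ≤ R`.  Case `c ≤ s`: symmetric.  (`vis c R s (a :: w') = [|s - c| ≤ R] +
vis c R s' w'`.)  Also `KA` of `lowX`, `highX` is needed for `len_add` (induction). -/
def S_cut : Prop := ∀ (k : ℕ) (T : Finset Pt) (R : ℕ), Gen k T → Bd k T R →
  ∀ (c s : ℤ) (w : List Pt), Wd T w →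
  lowX k c s w + highX k c s w = (k : ℚ) ^ s * (val k w).1 ∧
  KA k (lowX k c s w) ∧ Kad k (R - c) (highX k c s w) ∧
  len k T ((k : ℚ) ^ (-(min s c)) * lowX k c s w, min (s + ht w) c - min s c) +
    len k T ((k : ℚ) ^ (-(max s c)) * highX k c s w, max (s + ht w) c - max s c) ≤
    w.length + 2 * R * R * vis c R s w

/-- CG-09.  Size of the low part.  Each height `h` is visited at most `vis h R s w ≤ P` times; the
letters at the height `h < c` contribute at most `k ^ h * k ^ R` each, and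
`∑_{h < c} k ^ h ≤ k ^ c` as `k ≥ 2` (only finitely many heights occur, e.g. between `-N` and `c`).
(`lowX` is the sum over the positions `i < |w|` of `k ^ (s + ht (w.take i)) * (w[i]).1`, restricted
to the heights `< c`; group by the height.) -/
def S_low : Prop := ∀ (k : ℕ) (T : Finset Pt) (R P : ℕ), 2 ≤ k → Bd k T R →
  ∀ (c s : ℤ) (w : List Pt), Wd T w → (∀ j, vis j R s w ≤ P) →
  |lowX k c s w| ≤ P * (k : ℚ) ^ (c + R)

/-- quasi-additivity of the length -/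
def Key (k : ℕ) (T : Finset Pt) (K : ℕ) : Prop :=
  ∀ (h1 h2 u1 u2 : ℕ), u1 < k ^ h1 → u2 < k ^ h2 →
    len k T ((u1 : ℚ), (h1 : ℤ)) + len k T ((u2 : ℚ), (h2 : ℤ)) ≤
      len k T (((u1 + k ^ h1 * u2 : ℕ) : ℚ), ((h1 + h2 : ℕ) : ℤ)) + K

/-- CG-10.  KEY LEMMA, from `S_metric`, `S_window`, `S_cut`, `S_low` (hypotheses).  Let `w` be
geodesic with value `(u1 + k ^ h1 u2, h1 + h2)`, started at the height `0`; cut it at `c = h1`:
`len (xl, h1) + len (k ^ (-h1) xh, h2) ≤ |w| + 2 R² P`, `xl + xh = u1 + k ^ h1 u2`.  Put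
`y = (xl - u1) / k ^ h1 = u2 - k ^ (-h1) xh`.  Then `Kad k R y` (as `Kad k (R - h1) xh`) and
`|y| ≤ P k ^ R + 1 ≤ k ^ L` for a constant `L` (`S_low`), so `len (y, 0) ≤ K1` by `S_metric`.  Finally
`(u1, h1) = (xl, h1) (-y, 0)` and `(u2, h2) = (y, 0) (k ^ (-h1) xh, h2)`. -/
def S_key : Prop := ∀ (k : ℕ) (T : Finset Pt) (R : ℕ), Gen k T → Bd k T R → ∃ K : ℕ, Key k T K

/-- CG-11.  Range of the lengths.  `|ht w| ≤ R |w|` for all words; `(u, h) = (u, 0) (0, h)` and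
`S_metric` (hypothesis), `len_vert`. -/
def S_range : Prop := ∀ (k : ℕ) (T : Finset Pt) (R : ℕ), Gen k T → Bd k T R →
  (∀ p : Pt, KA k p.1 → p.2.natAbs ≤ R * len k T p) ∧
  ∃ C : ℕ, ∀ h u : ℕ, u < k ^ h → len k T ((u : ℚ), (h : ℤ)) ≤ C * (h + 1)

/-- CG-12.  Quasi-multiplicativity of `A_h`.  `(u1, u2) ↦ u1 + k ^ h1 u2` is a bijection from
`[0, k ^ h1) × [0, k ^ h2)` to `[0, k ^ (h1 + h2))`, and `(u1, h1) (u2, h2) = (u1 + k ^ h1 u2, h1 + h2)`
so that `len_add` gives the first inequality and `Key` the second one. -/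
def S_mulA : Prop := ∀ (k : ℕ) (T : Finset Pt) (K : ℕ), Gen k T → Key k T K →
  ∀ (h1 h2 : ℕ) (z : ℝ), 0 < z → z ≤ 1 →
    A k T h1 z * A k T h2 z ≤ A k T (h1 + h2) z ∧
    z ^ K * A k T (h1 + h2) z ≤ A k T h1 z * A k T h2 z

/-- the properties of the radius `ρ`; the points below `ρ` are written `ρ * q ^ R` with `0 < q ≤ 1` -/
structure Rad (k : ℕ) (T : Finset Pt) (R K C : ℕ) (ρ : ℝ) : Prop where
  pos : 0 < ρ
  lt_one : ρ < 1
  le : ∀ q : ℝ, 0 < q → q ≤ 1 → ∀ h, A k T h (ρ * q ^ R) ≤ q ^ h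
  ge : ∀ q : ℝ, 0 < q → q ≤ 1 → ∀ h, ρ ^ K * q ^ (R * (C * (h + 1))) ≤ A k T h (ρ * q ^ R)

/-- CG-13.  The radius.  Let `Z` be the set of `z ∈ (0, 1]` with `A_h(z) ≤ 1` for all `h`.  It is
nonempty: if `z ≤ k ^ (-R)` then `A_h(z) = ∑ z ^ len ≤ k ^ h * max z ^ len ≤ 1` since
`h ≤ R * len`, so `z ^ len ≤ k ^ (-R len) ≤ k ^ (-h)`.  Let `ρ = sup Z`; `A_h` is continuous and
increasing, so `A_h(ρ) ≤ 1`; `ρ < 1` since `A_1(1) = k > 1`.  If `A_h(ρ) < ρ ^ K` for some `h` (then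
`h ≥ 1`, as `A_0 = 1`), choose `z ∈ (ρ, 1)` with `A_h(z) < z ^ K`; by `S_mulA` (hypothesis)
`A_{n h}(z) ≤ z ^ K (A_h(z) / z ^ K) ^ n → 0`; if `A_{h'}(z) > 1` for some `h'` then
`A_{n h h'}(z) ≥ A_{h'}(z) ^ (n h) → ∞`, a contradiction, so `z ∈ Z`, a contradiction.  So
`ρ ^ K ≤ A_h(ρ) ≤ 1` for all `h`.  Finally `A_h(ρ q ^ R) = ∑ ρ ^ len * q ^ (R len)` and
`h ≤ R len ≤ R C (h + 1)`. -/
def S_rho : Prop := ∀ (k : ℕ) (T : Finset Pt) (R K C : ℕ), Gen k T → Bd k T R → Key k T K →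
  (∀ p : Pt, KA k p.1 → p.2.natAbs ≤ R * len k T p) →
  (∀ h u : ℕ, u < k ^ h → len k T ((u : ℚ), (h : ℤ)) ≤ C * (h + 1)) →
  ∃ ρ : ℝ, Rad k T R K C ρ

/-! ## Conjugacy classes with exponent `m ≥ 1` -/

/-- the number `b (1 + k ^ q + ⋯ + k ^ (q (d - 1)))`; `(b, q) ^ d = (geomB k b q d, q d)` -/
def geomB (k b q d : ℕ) : ℕ := b * ∑ i ∈ range d, k ^ (q * i)

/-- CG-14.  Class length of powers.  Put `p = (b, q)`, `g = c p ^ d c⁻¹` (an element of the class of
`p ^ d`) with `len g = clen`.  By `Key` and induction on `n`, `len (p ^ n) ≥ n len p - n K`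
(`p ^ (n + 1) = p ^ n p` and `geomB k b q n < k ^ (q n)`).  For all `N`: `g ^ N = c p ^ (d N) c⁻¹`,
so `N len g ≥ len (g ^ N) ≥ len (p ^ (d N)) - 2 len c ≥ d N len p - d N K - 2 len c`; let
`N → ∞`. -/
def S_pow : Prop := ∀ (k : ℕ) (T : Finset Pt) (K : ℕ), Gen k T → Key k T K →
  ∀ (b q d : ℕ), 1 ≤ q → b < k ^ q →
    d * len k T ((b : ℚ), (q : ℤ)) ≤ clen k T ((geomB k b q d : ℚ), ((q * d : ℕ) : ℤ)) + d * K

/-- representatives of the conjugacy classes of exponent `m ≥ 1`: the numbers `r < k ^ m - 1` which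
are minimal in their orbit under multiplication by `k` modulo `k ^ m - 1` -/
def Rep (k m : ℕ) : Finset ℕ :=
  (range (k ^ m - 1)).filter (fun r => ∀ j < m, r ≤ (k ^ j * r) % (k ^ m - 1))

/-- contribution of the classes of exponent `m` -/
noncomputable def F (k : ℕ) (T : Finset Pt) (m : ℕ) (z : ℝ) : ℝ :=
  ∑ r ∈ Rep k m, z ^ clen k T ((r : ℚ), (m : ℤ))

/-- CG-15.  Elementary facts on conjugation.  (1) `Cj` is an equivalence relation on the points with
first coordinate in `ℤ[1/k]`.  (2) conjugate points have the same exponent.  (3) conjugate points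
have conjugate inverses and the same class length.  (4) `clen p ≤ len p`.
(5) `clen (inv p) = clen p` (`len_inv`). -/
def S_cj : Prop := ∀ (k : ℕ) (T : Finset Pt), Gen k T →
  (∀ p, Cj k p p) ∧ (∀ p q, Cj k p q → Cj k q p) ∧ (∀ p q r, Cj k p q → Cj k q r → Cj k p r) ∧
  (∀ p q, Cj k p q → p.2 = q.2) ∧ (∀ p q, Cj k p q → Cj k (inv k p) (inv k q)) ∧
  (∀ p q, Cj k p q → clen k T p = clen k T q) ∧ (∀ p, clen k T p ≤ len k T p) ∧
  (∀ p, KA k p.1 → clen k T (inv k p) = clen k T p) ∧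
  (∀ p, KA k p.1 → ∃ q, KA k q.1 ∧ Cj k p q ∧ len k T q = clen k T p)

/-- CG-16.  Classification for `m ≥ 1`.  Conjugation of `(x, m)` by `(0, i)` gives `(k ^ i x, m)` and by
`(y, 0)` gives `(x + y - k ^ m y, m)`.  So every point of exponent `m` is conjugate to `(r, m)` with
an integer `0 ≤ r < k ^ m - 1`, and `(r, m)`, `(r', m)` (integers) are conjugate if and only if
`r' ≡ k ^ j r` modulo `k ^ m - 1` for some `j` (which can be taken `< m`; for `⇒`: if
`r' = k ^ i r + y - k ^ m y` with `y ∈ ℤ[1/k]`, multiply by a power of `k ^ m` and use that `k` is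
invertible modulo `k ^ m - 1`). -/
def S_class : Prop := ∀ (k : ℕ), 2 ≤ k → ∀ m : ℕ, 1 ≤ m →
  (∀ p : Pt, KA k p.1 → p.2 = m → ∃ r ∈ Rep k m, Cj k p ((r : ℚ), (m : ℤ))) ∧
  (∀ r ∈ Rep k m, ∀ r' ∈ Rep k m, Cj k ((r : ℚ), (m : ℤ)) ((r' : ℚ), (m : ℤ)) → r = r') ∧
  (∀ r j : ℕ, Cj k ((r : ℚ), (m : ℤ)) ((((k ^ j * r) % (k ^ m - 1) : ℕ) : ℚ), (m : ℤ)))

/-- CG-17.  Lower bound for `F_m`: each `r < k ^ m - 1` is in the orbit of exactly one `r₀ ∈ Rep k m`
(the minimum of its orbit), the orbit of `r₀` has at most `m` elements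
(`k ^ j r₀ mod (k ^ m - 1)`, `j < m`) and `clen (r₀, m) = clen (r, m) ≤ len (r, m)`. -/
def S_Flow : Prop := ∀ (k : ℕ) (T : Finset Pt), Gen k T → ∀ (m : ℕ) (z : ℝ), 1 ≤ m → 0 < z → z ≤ 1 →
  ∑ r ∈ range (k ^ m - 1), z ^ len k T ((r : ℚ), (m : ℤ)) ≤ m * F k T m z

/-- contribution of the proper powers -/
noncomputable def E (k : ℕ) (T : Finset Pt) (m : ℕ) (z : ℝ) : ℝ :=
  ∑ q ∈ m.properDivisors, ∑ b ∈ range (k ^ q),
    z ^ clen k T ((geomB k b q (m / q) : ℚ), (m : ℤ))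

/-- CG-18.  Upper bound for `F_m`.  Let `r ∈ Rep k m`.  If the `m` numbers `k ^ j r mod (k ^ m - 1)`,
`j < m`, are distinct then `m z ^ clen (r, m)` is the sum of `z ^ clen (r', m)` over the orbit and
`clen (r', m) ≥ len (r', m) - K` by `S_pow` with `d = 1` (`geomB k b q 1 = b`); the orbits are
disjoint.  Otherwise `k ^ q r ≡ r` for some divisor `q < m` of `m` (the order of `k` modulo
`(k ^ m - 1) / gcd` divides `m`), so `(k ^ m - 1) ∣ r (k ^ q - 1)` and `r = b (k ^ m - 1) / (k ^ q - 1)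
= geomB k b q (m / q)` with `b < k ^ q`. -/
def S_Fup : Prop := ∀ (k : ℕ) (T : Finset Pt) (K : ℕ), Gen k T → Key k T K →
  ∀ (m : ℕ) (z : ℝ), 1 ≤ m → 0 < z → z ≤ 1 →
  z ^ K * (m * F k T m z) ≤ A k T m z + z ^ K * (m * E k T m z)

/-- CG-19.  The proper powers are negligible: with `θ = ρ ^ (1 / (4 R))` (real power).  Let
`ρ / 2 ≤ z ≤ ρ`, `q` a proper divisor of `m`, `d = m / q ≥ 2`, `b < k ^ q`, `ℓ = len (b, q) ≥ q / R`.
By `S_range`, `clen (·, m) ≥ m / R` (a point of the class realizes `clen` and has exponent `m`).  If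
`q < 2 K R` the sum over `b` is at most `k ^ (2 K R) * ρ ^ (m / R)`.  If `q ≥ 2 K R` then `ℓ ≥ 2 K`
and by `S_pow` `clen ≥ d (ℓ - K) = (ℓ - K) + (d - 1) (ℓ - K) ≥ ℓ - K + (d - 1) ℓ / 2
≥ ℓ - K + (d - 1) q / (2 R) ≥ ℓ - K + m / (4 R)`, so the sum over `b` is at most
`z ^ (-K) * A_q(z) * ρ ^ (m / (4 R)) ≤ (2 / ρ) ^ K * θ ^ m` (`A_q(z) ≤ 1`, `Rad.le` with
`q = (z / ρ) ^ (1 / R) ≤ 1`).  There are at most `m` proper divisors. -/
def S_E : Prop := ∀ (k : ℕ) (T : Finset Pt) (R K C : ℕ) (ρ : ℝ), Gen k T → Bd k T R → Key k T K →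
  Rad k T R K C ρ →
  ∃ (C' θ : ℝ), 0 < θ ∧ θ < 1 ∧ ∀ (m : ℕ) (z : ℝ), 1 ≤ m → ρ / 2 ≤ z → z ≤ ρ →
    E k T m z ≤ C' * (m * θ ^ m)

/-- CG-32.  Upper bound for the sum over the exponents, from `S_Fup`, `S_E` (hypotheses): with
`z = ρ q ^ R ≥ ρ / 2`, `z ^ (-K) ≤ (2 / ρ) ^ K` and `A_m(z) ≤ q ^ m` (`Rad.le`):
`F_m(z) ≤ (2 / ρ) ^ K q ^ m / m + C' m θ ^ m`; sum over `m`:
`∑_{m = 1}^M q ^ m / m ≤ - log (1 - q)` (`Real.hasSum_pow_div_log_of_abs_lt_one`) and
`∑ m θ ^ m < ∞`. -/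
def S_sumF : Prop := ∀ (k : ℕ) (T : Finset Pt) (R K C : ℕ) (ρ : ℝ), Gen k T → Bd k T R → Key k T K →
  Rad k T R K C ρ →
  ∃ C' : ℝ, 0 ≤ C' ∧ ∀ q : ℝ, 0 < q → q < 1 → 1 / 2 ≤ q ^ R → ∀ M : ℕ,
    ∑ m ∈ Icc 1 M, F k T m (ρ * q ^ R) ≤ C' - C' * Real.log (1 - q)

/-- CG-33.  Lower bound for the sum over the exponents, from `S_Flow`, `S_range` (hypotheses), with
`a = ρ ^ K`, `c = R * C`, `θ = ρ ^ (1 / R)` (real power): with `z = ρ q ^ R`,
`m F_m(z) ≥ A_m(z) - z ^ len (k ^ m - 1, m) ≥ ρ ^ K q ^ (R C (m + 1)) - θ ^ m` (`Rad.ge`;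
`R * len ≥ m`, so `z ^ len ≤ ρ ^ len = θ ^ (R len) ≤ θ ^ m`). -/
def S_sumFlow : Prop := ∀ (k : ℕ) (T : Finset Pt) (R K C : ℕ) (ρ : ℝ), Gen k T → Bd k T R →
  Rad k T R K C ρ →
  ∃ (a θ : ℝ) (c : ℕ), 0 < a ∧ 0 < θ ∧ θ < 1 ∧ ∀ q : ℝ, 0 < q → q < 1 → 1 / 2 ≤ q ^ R → ∀ M : ℕ,
    ∑ m ∈ Icc 1 M, (a * q ^ (c * (m + 1)) - θ ^ m) / m ≤ ∑ m ∈ Icc 1 M, F k T m (ρ * q ^ R)

/-! ## Conjugacy classes with exponent `0` -/

/-- CG-20.  Peak decomposition.  Let `w` be a shortest word among all words whose value is conjugate to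
`(x, 0)`.  All cyclic rotations of `w` have the same property (their values are conjugate); rotate so
that the path started at the height `0` stays at heights `≥ 0`; let `H` be the maximal height and
`w = u ++ v`, where `u` ends at the height `H`.  Then `val u = (v1, H)`, and `rinv v` has the value
`(v2, H)`, `val w = (v1 - v2, 0)`, and `u`, `rinv v` are geodesic (a shorter word could be used in
`w`).  The paths of `u` and `rinv v` started at `0` stay in `[0, H]`, so `Kad k R vi` (`S_in` with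
`lo = 0`) and `|vi| ≤ P k ^ (H + 1 + R)` by `S_low` with `c = H + 1` (`lowX` is the whole value) and
`S_window`.  Points conjugate to `(x, 0)` are `(k ^ i x, 0)`. -/
def S_peak : Prop := ∀ (k : ℕ) (T : Finset Pt) (R P : ℕ), Gen k T → Bd k T R →
  (∀ (j s : ℤ) (w : List Pt), Geo k T w → vis j R s w ≤ P) →
  ∀ x : ℚ, KA k x → ∃ (H : ℕ) (v1 v2 : ℚ) (i : ℤ), v1 - v2 = (k : ℚ) ^ i * x ∧
    clen k T (x, 0) = len k T (v1, (H : ℤ)) + len k T (v2, (H : ℤ)) ∧
    Kad k R v1 ∧ Kad k R v2 ∧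
    |v1| ≤ P * (k : ℚ) ^ ((H : ℤ) + 1 + R) ∧ |v2| ≤ P * (k : ℚ) ^ ((H : ℤ) + 1 + R)

/-- CG-21.  Insertion of a digit, with `C = 2 * R * R + R`.  Let `w` be geodesic with value
`(v, H)` and started at the height `0`, and let `w = w1 ++ w2` where `h' = ht w1` is the first height
`≥ i`; then `h' ≤ i + R`.  `(v + k ^ i, H) = val w1 * (k ^ (i - h'), 0) * val w2` and
`(k ^ (i - h'), 0) = (0, i - h') (1, 0) (0, h' - i)`. -/
def S_insert : Prop := ∀ (k : ℕ) (T : Finset Pt) (R : ℕ), Gen k T → Bd k T R →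
  ∀ (i H : ℕ) (v : ℚ), i ≤ H → KA k v →
    len k T (v + (k : ℚ) ^ i, (H : ℤ)) ≤ len k T (v, (H : ℤ)) + (2 * R * R + R)

/-- CG-22.  Each `v` with `Kad k R v`, `|v| ≤ P k ^ (H + 1 + R)` is
`v = f / k ^ R + u + k ^ H y` with natural numbers `f < k ^ R`, `u < k ^ H` and an integer
`|y| ≤ P k ^ (1 + R) + 1`; `(v, H) = (f / k ^ R, 0) (u, H) (y, 0)`, so
`len (v, H) ≥ len (u, H) - c` with `c` a bound for `len (f / k ^ R, 0) + len (y, 0)`
(finitely many values); and `v ↦ (f, y, u)` is injective. -/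
def S_sumA : Prop := ∀ (k : ℕ) (T : Finset Pt) (R P : ℕ) (z₀ : ℝ), Gen k T → 0 < z₀ →
  ∃ C' : ℝ, 0 ≤ C' ∧ ∀ (H : ℕ) (z : ℝ), z₀ ≤ z → z ≤ 1 → ∀ V : Finset ℚ,
    (∀ v ∈ V, Kad k R v ∧ |v| ≤ P * (k : ℚ) ^ ((H : ℤ) + 1 + R)) →
    ∑ v ∈ V, z ^ len k T (v, (H : ℤ)) ≤ C' * A k T H z

/-- integers which represent the classes of exponent `0` -/
def Z0 (k : ℕ) : Set ℤ := {x | x = 0 ∨ ¬ (k : ℤ) ∣ x}

/-- CG-23.  The classes of exponent `0` have a bounded contribution.  Choose for each `x ∈ X` the data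
`H, v1, v2` of `S_peak` (hypothesis).  Fix `H` and let `X_H` be the set of the `x ∈ X` with this `H`.
For `J ⊆ [0, H)` let `k_J = ∑_{i ∈ J} k ^ i` (`< k ^ H`).  The map
`(x, J) ↦ (v1 + k_J, v2 + k_J)` is injective on `X_H × powerset`: the difference is `k ^ i x`, which
determines `x ∈ Z0` (or `0`), hence `v1`, hence `k_J`, hence `J` (digits in base `k ≥ 2`).  By
`S_insert` (iterated) `len (vi + k_J, H) ≤ len (vi, H) + c |J|`, `c = 2 R² + R`.  So
`∑_{x ∈ X_H} z ^ clen (x, 0) * (1 + z ^ (2 c)) ^ H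
≤ (∑_{v ∈ V} z ^ len (v, H)) ^ 2 ≤ (C' A_H(z)) ^ 2 ≤ C' ^ 2`, where `V` is the set of all the
`vi + k_J` (`|vi + k_J| ≤ (P + 1) k ^ (H + 1 + R)`: `S_sumA` with `P + 1`; `A_H(z) ≤ 1` by
`Rad.le`).  Sum the geometric series in `H` (`z ≥ ρ / 2`). -/
def S_zero : Prop := ∀ (k : ℕ) (T : Finset Pt) (R K C P : ℕ) (ρ : ℝ), Gen k T → Bd k T R →
  (∀ (j s : ℤ) (w : List Pt), Geo k T w → vis j R s w ≤ P) → Rad k T R K C ρ →
  ∃ C' : ℝ, ∀ z : ℝ, ρ / 2 ≤ z → z ≤ ρ → ∀ X : Finset ℤ, (∀ x ∈ X, x ∈ Z0 k) →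
    ∑ x ∈ X, z ^ clen k T ((x : ℚ), (0 : ℤ)) ≤ C'

/-- CG-24.  Classification for the exponent `0`: `(x, 0)` is conjugate exactly to the `(k ^ i x, 0)`. -/
def S_class0 : Prop := ∀ (k : ℕ), 2 ≤ k →
  (∀ x : ℚ, KA k x → ∃ y ∈ Z0 k, Cj k (x, 0) ((y : ℚ), 0)) ∧
  (∀ x ∈ Z0 k, ∀ y ∈ Z0 k, Cj k ((x : ℚ), 0) ((y : ℚ), 0) → x = y) ∧
  (∀ (x : ℚ) (q : Pt), Cj k (x, 0) q → ∃ i : ℤ, q = ((k : ℚ) ^ i * x, 0))

/-! ## From the group to the model -/

/-- `f` identifies the group `G` with the group of all points `(x, m)`, `x` in `ℤ[1/k]` -/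
structure Mdl (k : ℕ) (G : Type) [Group G] (f : G → Pt) : Prop where
  map_mul : ∀ g h, f (g * h) = mul k (f g) (f h)
  inj : Function.Injective f
  ran : ∀ p : Pt, (∃ g, f g = p) ↔ KA k p.1

/-- the relator of `BS(1,k) = ⟨a, t | t a t⁻¹ = a ^ k⟩`, `a` = generator `0`, `t` = generator `1` -/
def bsRel (k : ℕ) : Set (FreeGroup (Fin 2)) :=
  {FreeGroup.of 1 * FreeGroup.of 0 * (FreeGroup.of 1)⁻¹ * (FreeGroup.of 0 ^ k)⁻¹}

/-- CG-25.  The affine model of `BS(1,k)`: `a ↦ (1, 0)`, `t ↦ (0, 1)`.  (The points with first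
coordinate in `ℤ[1/k]` form a group; `PresentedGroup.toGroup`.)  Injectivity: every element of the
presented group is `t⁻ⁱ aⁿ t ^ j` with natural numbers `i, j` and an integer `n` (the set of these
elements contains `1` and is stable under right multiplication by `a`, `a⁻¹`, `t`, `t⁻¹`, since
`t ^ j a = a ^ (k ^ j) t ^ j` and `aⁿ t⁻¹ = t⁻¹ a ^ (k n)`), and its image is
`(n / k ^ i, j - i)`; if the image is `(0, 0)` then `n = 0` and `i = j`. -/
def S_model : Prop := ∀ k : ℕ, 2 ≤ k → ∃ f : PresentedGroup (bsRel k) → Pt, Mdl k _ f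

/-- CG-26.  Words in `G` and words in the model.  `T = f (S ∪ S⁻¹)`; `f 1 = (0, 0)`,
`f g⁻¹ = inv k (f g)`; `val k (l.map f) = f l.prod`. -/
def S_words : Prop := ∀ (k : ℕ) (G : Type) [Group G] (f : G → Pt) (S : Finset G), 2 ≤ k →
  Mdl k G f → Subgroup.closure (S : Set G) = ⊤ →
  ∃ T : Finset Pt, Gen k T ∧ ∀ (g : G) (n : ℕ),
    (∃ l : List G, l.length = n ∧ (∀ x ∈ l, x ∈ S ∨ x⁻¹ ∈ S) ∧ l.prod = g) ↔
    (∃ w : List Pt, w.length = n ∧ Wd T w ∧ val k w = f g)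

/-- the set of conjugacy classes which is counted by the `n`-th coefficient -/
def cset {G : Type} [Group G] (S : Finset G) (n : ℕ) : Set (ConjClasses G) :=
  {c : ConjClasses G |
    (∃ g : G, ConjClasses.mk g = c ∧
      ∃ l : List G, l.length ≤ n ∧ (∀ x ∈ l, x ∈ S ∨ x⁻¹ ∈ S) ∧ l.prod = g) ∧
    (∀ g : G, ConjClasses.mk g = c → ∀ l : List G, (∀ x ∈ l, x ∈ S ∨ x⁻¹ ∈ S) →
      l.prod = g → n ≤ l.length)}

/-- CG-27.  Class lengths: `c` is in `cset S n` if and only if the class length of `c` is `n`; the sets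
`cset S n` are finite (finitely many words of length `n`).  (`T` is as in `S_words`.) -/
def S_cset : Prop := ∀ (k : ℕ) (G : Type) [Group G] (f : G → Pt) (S : Finset G) (T : Finset Pt),
  Mdl k G f → Gen k T →
  (∀ (g : G) (n : ℕ),
    (∃ l : List G, l.length = n ∧ (∀ x ∈ l, x ∈ S ∨ x⁻¹ ∈ S) ∧ l.prod = g) ↔
    (∃ w : List Pt, w.length = n ∧ Wd T w ∧ val k w = f g)) →
  (∀ n, (cset S n).Finite) ∧
  (∀ (g : G) (n : ℕ), ConjClasses.mk g ∈ cset S n ↔ clen k T (f g) = n) ∧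
  (∀ g h : G, ConjClasses.mk g = ConjClasses.mk h ↔ Cj k (f g) (f h))

/-- CG-28.  The coefficients.  By `S_class`, `S_class0`, `S_cj` (hypotheses) every class of `G` is the
class of exactly one of the points `(x, 0)` (`x ∈ Z0 k`), `(r, m)`, `inv (r, m)` (`m ≥ 1`,
`r ∈ Rep k m`), with the class lengths `clen (x, 0)`, `clen (r, m)`, `clen (r, m)`.  (1) The finitely
many classes counted by the coefficients below `N` are represented by a finite set `X ⊂ Z0 k`
and by points with exponents at most `M`.  (2) The classes of the points `(r, m)`,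
`1 ≤ m ≤ M`, are distinct, and `N` is larger than all their lengths. -/
def S_count : Prop := ∀ (k : ℕ) (G : Type) [Group G] (f : G → Pt) (S : Finset G) (T : Finset Pt),
  Mdl k G f → Gen k T → (∀ n, (cset S n).Finite) →
  (∀ (g : G) (n : ℕ), ConjClasses.mk g ∈ cset S n ↔ clen k T (f g) = n) →
  (∀ g h : G, ConjClasses.mk g = ConjClasses.mk h ↔ Cj k (f g) (f h)) →
  (∀ N : ℕ, ∃ (M : ℕ) (X : Finset ℤ), (∀ x ∈ X, x ∈ Z0 k) ∧ ∀ z : ℝ, 0 < z →
    ∑ n ∈ range N, ((cset S n).ncard : ℝ) * z ^ n ≤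
      ∑ x ∈ X, z ^ clen k T ((x : ℚ), (0 : ℤ)) + 2 * ∑ m ∈ Icc 1 M, F k T m z) ∧
  (∀ M : ℕ, ∃ N : ℕ, ∀ z : ℝ, 0 < z →
    ∑ m ∈ Icc 1 M, F k T m z ≤ ∑ n ∈ range N, ((cset S n).ncard : ℝ) * z ^ n)

/-! ## Analysis -/

/-- CG-29.  Formal identity to identity of functions: on power series with nonnegative coefficients
which converge at `x > 0` (absolutely convergent series in general) evaluation at `x` respects sums
and products (Cauchy products, `tsum_mul_tsum_eq_tsum_sum_antidiagonal_of_summable_norm`).  So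
`eval₂ (…) (mk c) P = 0` gives `∑_i (P.coeff i)(x) * f(x) ^ i = 0`. -/
def S_eval : Prop := ∀ (c : ℕ → ℕ) (x : ℝ), 0 < x → Summable (fun n => (c n : ℝ) * x ^ n) →
  ∀ P : Polynomial (Polynomial ℚ),
    Polynomial.eval₂ Polynomial.coeToPowerSeries.ringHom
      (PowerSeries.mk (fun n => ((c n : ℕ) : ℚ))) P = 0 →
    ∑ i ∈ range (P.natDegree + 1),
      (Polynomial.aeval x (P.coeff i) : ℝ) * (∑' n, (c n : ℝ) * x ^ n) ^ i = 0

/-- CG-30.  A function which tends to infinity more slowly than every power of `1 / (ρ - x)` is not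
algebraic.  Divide all coefficients by the largest power of `X - ρ` (over `ℝ`) which divides all of
them, so that some coefficient does not vanish at `ρ`; let `i₀` be the largest such index; divide
the identity by `f(x) ^ i₀`: the terms `i < i₀` tend to `0` as `f → ∞`, the term `i₀` tends to
`p_{i₀}(ρ) ≠ 0`, the terms `i > i₀` are `(ρ - x) * (bounded) * f(x) ^ (i - i₀) → 0`. -/
def S_crit : Prop := ∀ (f : ℝ → ℝ) (ρ : ℝ), Tendsto f (𝓝[<] ρ) atTop →
  (∀ j : ℕ, Tendsto (fun x => (ρ - x) * f x ^ j) (𝓝[<] ρ) (𝓝 0)) →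
  ∀ P : Polynomial (Polynomial ℚ), P ≠ 0 →
    (∀ᶠ x in 𝓝[<] ρ, ∑ i ∈ range (P.natDegree + 1), (Polynomial.aeval x (P.coeff i) : ℝ) * f x ^ i = 0) → False

/-- CG-31.  Logarithmic growth.  For `x < ρ` near `ρ` write `x = ρ q ^ R`, `q = (x / ρ) ^ (1 / R) < 1`
(real power), `q → 1` as `x → ρ`.  Lower bound: choose `M` with `a ∑_{m ≤ M} 1 / m` large; the right
side is continuous in `q` and at `q = 1` it is `∑_{m ≤ M} (a - θ ^ m) / m ≥ a ∑_{m ≤ M} 1 / m -
1 / (1 - θ)`.  Upper bound: `1 - q ≥ c (ρ - x)` (e.g. `1 - q ≥ (1 - q ^ R) / R`), so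
`f x ≤ C - C log (c (ρ - x))` and `(ρ - x) * (C + C |log (ρ - x)|) ^ j → 0`
(e.g. `|log y| ≤ C_j y ^ (-1 / (2 j))`; `f x ≥ 0` near `ρ`). -/
def S_logs : Prop := ∀ (f : ℝ → ℝ) (ρ a θ C : ℝ) (R c : ℕ), 0 < ρ → 1 ≤ R → 0 < a → 0 < θ → θ < 1 →
  (∀ q : ℝ, 0 < q → q < 1 → 1 / 2 ≤ q ^ R → ∀ M : ℕ,
    ∑ m ∈ Icc 1 M, (a * q ^ (c * (m + 1)) - θ ^ m) / m ≤ f (ρ * q ^ R)) →
  (∀ q : ℝ, 0 < q → q < 1 → 1 / 2 ≤ q ^ R → f (ρ * q ^ R) ≤ C - C * Real.log (1 - q)) →
  Tendsto f (𝓝[<] ρ) atTop ∧ ∀ j : ℕ, Tendsto (fun x => (ρ - x) * f x ^ j) (𝓝[<] ρ) (𝓝 0)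

end Pool.Agent.J6H54.CG
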